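import Mathlib

/-! # Arrays `c` (families of `m` moving rows) and the exchange lemma -/

namespace Pool.Agent.R805.Stab

open Finset

/-- `c x s` is the number of the `m` chosen rows that are `≥ x` at time `s`. -/
structure CArr (n m : ℕ) (c : ℕ → ℕ → ℤ) : Prop where
  top : ∀ s, c 0 s = m
  bot : ∀ s, c n s = 0
  step0 : ∀ x s, x < n → c (x+1) s ≤ c x s
  step1 : ∀ x s, x < n → c x s ≤ c (x+1) s + 1
  anti : ∀ x s, x ≤ n → c x (s+1) ≤ c x s

def Score (a : ℕ → ℕ) (e : ℕ) (c : ℕ → ℕ → ℤ) : ℤ :=
  ∑ s ∈ range e, (c (a s) s - c (a s + 1) s)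

lemma CArr.anti_le {n m : ℕ} {c : ℕ → ℕ → ℤ} (hc : CArr n m c) {x s t : ℕ} (hx : x ≤ n)
    (hst : s ≤ t) : c x t ≤ c x s := by
  induction t, hst using Nat.le_induction with
  | base => exact le_refl _
  | succ k hk ih => exact (hc.anti x k hx).trans ih

lemma abel_pre (y g : ℕ → ℤ) (p e : ℕ) (hpe : p ≤ e)
    (hy : ∀ s, p ≤ s → s < e → y (s+1) ≤ y s)
    (hg : ∀ s, p ≤ s → s ≤ e → 0 ≤ ∑ i ∈ Ico p s, g i) :
    y e * ∑ i ∈ Ico p e, g i ≤ ∑ i ∈ Ico p e, y i * g i := by
  induction e, hpe using Nat.le_induction with
  | base => simp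
  | succ k hk ih =>
    have ih' := ih (fun s h1 h2 => hy s h1 (by omega)) (fun s h1 h2 => hg s h1 (by omega))
    have h1 := hy k hk (by omega)
    have h2 := hg (k+1) (by omega) le_rfl
    rw [Finset.sum_Ico_succ_top hk] at h2
    rw [Finset.sum_Ico_succ_top hk, Finset.sum_Ico_succ_top hk]
    nlinarith

lemma abel_suf (y g : ℕ → ℤ) (p : ℕ)
    (hy : ∀ s, s + 1 < p → y s ≤ y (s+1))
    (hy0 : ∀ s, s < p → 0 ≤ y s)
    (hg : ∀ s, s ≤ p → 0 ≤ ∑ i ∈ Ico s p, g i) :
    0 ≤ ∑ i ∈ Ico 0 p, y i * g i := by
  have key : ∀ d t, t + (d + 1) = p → y t * ∑ i ∈ Ico t p, g i ≤ ∑ i ∈ Ico t p, y i * g i := by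
    intro d
    induction d with
    | zero =>
      intro t ht
      have : p = t + 1 := by omega
      subst this
      simp
    | succ d ih =>
      intro t ht
      have h := ih (t+1) (by omega)
      have h1 := hy t (by omega)
      have h2 := hg (t+1) (by omega)
      rw [Finset.sum_eq_sum_Ico_succ_bot (by omega : t < p),
        Finset.sum_eq_sum_Ico_succ_bot (by omega : t < p)]
      nlinarith
  rcases Nat.eq_zero_or_pos p with rfl | hp
  · simp
  · have h := key (p-1) 0 (by omega)
    have h1 := hy0 0 hp
    have h2 := hg 0 (by omega)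
    nlinarith [mul_nonneg h1 h2]

/-- sign of the letter `a` with respect to the pair `r, r+1` -/
def gs (r a : ℕ) : ℤ := (if a = r + 1 then 1 else 0) - (if a = r then 1 else 0)

theorem exchange {n m e p r : ℕ} {a1 a2 : ℕ → ℕ} (hr : r + 1 < n) (hp : p < e)
    (heq : ∀ s, s ≠ p → a1 s = a2 s)
    (hcase : (a1 p = r ∧ a2 p = r+1) ∨ (a1 p = r+1 ∧ a2 p = r))
    (hi : ∀ s ≤ p, 0 ≤ ∑ i ∈ Ico s p, gs r (a1 i))
    (hii : ∀ s, p < s → s ≤ e → ∑ i ∈ Ico (p+1) s, gs r (a1 i) ≤ 0)
    {c : ℕ → ℕ → ℤ} (hc : CArr n m c) :
    ∃ c', CArr n m c' ∧ Score a1 e c ≤ Score a2 e c' := by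
  have ha1 : ∀ x s, x < n → c (x+1) s ≤ c x s := hc.step0
  have ha2 : ∀ x s, x < n → c x s ≤ c (x+1) s + 1 := hc.step1
  by_cases h1 : c r p - c (r+2) p = 1
  swap
  · refine ⟨c, hc, ?_⟩
    unfold Score
    apply le_of_eq
    refine Finset.sum_congr rfl (fun s hs => ?_)
    by_cases hsp : s = p
    · subst hsp
      have e1 := ha1 r s (by omega)
      have e2 := ha1 (r+1) s (by omega)
      have e3 := ha2 r s (by omega)
      have e4 := ha2 (r+1) s (by omega)
      have e5 : c (r+1+1) s = c (r+2) s := rfl
      rcases hcase with ⟨h2, h3⟩ | ⟨h2, h3⟩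
      · rw [h2, h3]
        omega
      · rw [h2, h3]
        omega
    · rw [heq s hsp]
  · classical
    set v := c r p with hv
    have hmono : ∀ x s t, x ≤ n → s ≤ t → c x t ≤ c x s := fun x s t hx hst => hc.anti_le hx hst
    set τ := if a2 p = r then p else p + 1 with hτ
    have hτ1 : p ≤ τ := by rw [hτ]; split_ifs <;> omega
    have hτ2 : τ ≤ p + 1 := by rw [hτ]; split_ifs <;> omega
    let I : ℕ → Prop := fun s => c r s = v ∧ c (r+2) s = v - 1
    let c' : ℕ → ℕ → ℤ := fun x s =>
      if x = r + 1 ∧ I s then (if s < τ then v else v - 1) else c x s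
    have hc'1 : ∀ x s, x ≠ r + 1 → c' x s = c x s := by
      intro x s hx
      simp only [c']
      rw [if_neg (by tauto)]
    have hc'2 : ∀ s, I s → s < τ → c' (r+1) s = v := by
      intro s hs h
      simp only [c']
      rw [if_pos ⟨trivial, hs⟩, if_pos h]
    have hc'3 : ∀ s, I s → τ ≤ s → c' (r+1) s = v - 1 := by
      intro s hs h
      simp only [c']
      rw [if_pos ⟨trivial, hs⟩, if_neg (by omega)]
    have hc'4 : ∀ s, ¬ I s → c' (r+1) s = c (r+1) s := by
      intro s hs
      simp only [c']
      rw [if_neg (by tauto)]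
    have hIp : I p := ⟨hv.symm ▸ rfl, by omega⟩
    have hb : ∀ s, I s → v - 1 ≤ c (r+1) s ∧ c (r+1) s ≤ v := by
      intro s ⟨h2, h3⟩
      have e1 := ha1 r s (by omega)
      have e2 := ha1 (r+1) s (by omega)
      constructor
      · have : c (r+1+1) s = v - 1 := h3
        omega
      · omega
    have hvalid : CArr n m c' := by
      refine ⟨?_, ?_, ?_, ?_, ?_⟩
      · intro s
        rw [hc'1 0 s (by omega)]
        exact hc.top s
      · intro s
        rw [hc'1 n s (by omega)]
        exact hc.bot s
      · intro x s hx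
        have e1 := ha1 x s hx
        by_cases hI : I s
        · obtain ⟨h2, h3⟩ := hI
          by_cases hx1 : x = r
          · subst hx1
            rw [hc'1 x s (by omega)]
            by_cases hst : s < τ
            · rw [hc'2 s ⟨h2, h3⟩ hst]; omega
            · rw [hc'3 s ⟨h2, h3⟩ (by omega)]; omega
          · by_cases hx2 : x = r + 1
            · subst hx2
              rw [hc'1 (r+1+1) s (by omega)]
              have h3' : c (r+1+1) s = v - 1 := h3
              by_cases hst : s < τ
              · rw [hc'2 s ⟨h2, h3⟩ hst]; omega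
              · rw [hc'3 s ⟨h2, h3⟩ (by omega)]; omega
            · rw [hc'1 (x+1) s (by omega), hc'1 x s hx2]
              exact e1
        · have : ∀ y, c' y s = c y s := by
            intro y
            by_cases hy : y = r + 1
            · subst hy; exact hc'4 s hI
            · exact hc'1 y s hy
          rw [this, this]
          exact e1
      · intro x s hx
        have e1 := ha2 x s hx
        by_cases hI : I s
        · obtain ⟨h2, h3⟩ := hI
          by_cases hx1 : x = r
          · subst hx1
            rw [hc'1 x s (by omega)]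
            by_cases hst : s < τ
            · rw [hc'2 s ⟨h2, h3⟩ hst]; omega
            · rw [hc'3 s ⟨h2, h3⟩ (by omega)]; omega
          · by_cases hx2 : x = r + 1
            · subst hx2
              rw [hc'1 (r+1+1) s (by omega)]
              have h3' : c (r+1+1) s = v - 1 := h3
              by_cases hst : s < τ
              · rw [hc'2 s ⟨h2, h3⟩ hst]; omega
              · rw [hc'3 s ⟨h2, h3⟩ (by omega)]; omega
            · rw [hc'1 (x+1) s (by omega), hc'1 x s hx2]
              exact e1
        · have : ∀ y, c' y s = c y s := by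
            intro y
            by_cases hy : y = r + 1
            · subst hy; exact hc'4 s hI
            · exact hc'1 y s hy
          rw [this, this]
          exact e1
      · intro x s hx
        by_cases hx1 : x = r + 1
        · subst hx1
          have m1 := hmono r s (s+1) (by omega) (by omega)
          have m2 := hmono (r+2) s (s+1) (by omega) (by omega)
          have m3 := hmono (r+1) s (s+1) (by omega) (by omega)
          have e1 := ha1 r s (by omega)
          have e2 := ha1 (r+1) s (by omega)
          have e3 := ha2 r s (by omega)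
          have e4 := ha2 (r+1) s (by omega)
          have e1' := ha1 r (s+1) (by omega)
          have e2' := ha1 (r+1) (s+1) (by omega)
          have e3' := ha2 r (s+1) (by omega)
          have e4' := ha2 (r+1) (s+1) (by omega)
          have r2 : r + 1 + 1 = r + 2 := rfl
          rw [r2] at e2 e4 e2' e4'
          by_cases hI : I s
          · by_cases hI' : I (s+1)
            · by_cases hst : s < τ
              · rw [hc'2 s hI hst]
                by_cases hst' : s + 1 < τ
                · rw [hc'2 _ hI' hst']
                · rw [hc'3 _ hI' (by omega)]; omega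
              · rw [hc'3 s hI (by omega), hc'3 _ hI' (by omega)]
            · rw [hc'4 _ hI']
              obtain ⟨h2, h3⟩ := hI
              have hI'' : ¬ (c r (s+1) = v ∧ c (r+2) (s+1) = v - 1) := hI'
              by_cases hst : s < τ
              · rw [hc'2 s ⟨h2, h3⟩ hst]; omega
              · rw [hc'3 s ⟨h2, h3⟩ (by omega)]; omega
          · rw [hc'4 _ hI]
            by_cases hI' : I (s+1)
            · have hI'' : ¬ (c r s = v ∧ c (r+2) s = v - 1) := hI
              obtain ⟨h2, h3⟩ := hI'
              by_cases hst : s + 1 < τ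
              · rw [hc'2 _ ⟨h2, h3⟩ hst]; omega
              · rw [hc'3 _ ⟨h2, h3⟩ (by omega)]; omega
            · rw [hc'4 _ hI']
              exact m3
        · rw [hc'1 x _ hx1, hc'1 x _ hx1]
          exact hc.anti x s hx
    refine ⟨c', hvalid, ?_⟩
    -- the weights
    let d1 : ℕ → ℤ := fun s => if I s then v - c (r+1) s else 0
    let d2 : ℕ → ℤ := fun s => if I s then c (r+1) s - (v-1) else 0
    -- termwise identity
    have hterm : ∀ (A : ℕ) s, (c' A s - c' (A+1) s) - (c A s - c (A+1) s)
        = (c' (r+1) s - c (r+1) s) * gs r A := by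
      intro A s
      unfold gs
      by_cases hA : A = r + 1
      · subst hA
        rw [hc'1 (r+1+1) s (by omega)]
        simp
      · by_cases hA2 : A = r
        · subst hA2
          rw [hc'1 A s (by omega)]
          simp
        · rw [hc'1 A s hA, hc'1 (A+1) s (by omega)]
          simp [hA, hA2]
    have hd1 : ∀ s, s < p → c' (r+1) s - c (r+1) s = d1 s := by
      intro s hs
      simp only [d1]
      by_cases hI : I s
      · rw [if_pos hI, hc'2 s hI (by omega)]
      · rw [if_neg hI, hc'4 s hI]; ring
    have hd2 : ∀ s, p < s → c' (r+1) s - c (r+1) s = - d2 s := by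
      intro s hs
      simp only [d2]
      by_cases hI : I s
      · rw [if_pos hI, hc'3 s hI (by omega)]; ring
      · rw [if_neg hI, hc'4 s hI]; ring
    have hsum : Score a2 e c' - Score a1 e c =
        ∑ s ∈ Ico 0 p, d1 s * gs r (a1 s)
        + ((c' (a2 p) p - c' (a2 p+1) p) - (c (a1 p) p - c (a1 p+1) p))
        + ∑ s ∈ Ico (p+1) e, d2 s * (- gs r (a1 s)) := by
      unfold Score
      rw [← Finset.sum_sub_distrib, Finset.range_eq_Ico,
        ← Finset.sum_Ico_consecutive _ (Nat.zero_le p) hp.le,
        Finset.sum_eq_sum_Ico_succ_bot hp]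
      have s1 : ∑ i ∈ Ico 0 p, (c' (a2 i) i - c' (a2 i + 1) i - (c (a1 i) i - c (a1 i + 1) i))
          = ∑ s ∈ Ico 0 p, d1 s * gs r (a1 s) := by
        refine Finset.sum_congr rfl (fun s hs => ?_)
        rw [Finset.mem_Ico] at hs
        rw [← heq s (by omega), hterm, hd1 s hs.2]
      have s2 : ∑ i ∈ Ico (p+1) e, (c' (a2 i) i - c' (a2 i + 1) i - (c (a1 i) i - c (a1 i + 1) i))
          = ∑ s ∈ Ico (p+1) e, d2 s * (- gs r (a1 s)) := by
        refine Finset.sum_congr rfl (fun s hs => ?_)
        rw [Finset.mem_Ico] at hs
        rw [← heq s (by omega), hterm, hd2 s (by omega)]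
        ring
      rw [s1, s2]
      ring
    have hA : 0 ≤ ∑ s ∈ Ico 0 p, d1 s * gs r (a1 s) := by
      refine abel_suf d1 (fun s => gs r (a1 s)) p ?_ ?_ hi
      · intro s hs
        simp only [d1]
        have m1 := hmono r s (s+1) (by omega) (by omega)
        have m2 := hmono (r+2) s (s+1) (by omega) (by omega)
        have m3 := hmono (r+1) s (s+1) (by omega) (by omega)
        have m4 := hmono r (s+1) p (by omega) (by omega)
        have m5 := hmono (r+2) (s+1) p (by omega) (by omega)
        by_cases hI : I s
        · obtain ⟨h2, h3⟩ := hI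
          have hI' : I (s+1) := ⟨by omega, by omega⟩
          rw [if_pos ⟨h2, h3⟩, if_pos hI']
          omega
        · rw [if_neg hI]
          by_cases hI' : I (s+1)
          · rw [if_pos hI']
            have := (hb _ hI').2
            omega
          · rw [if_neg hI']
      · intro s hs
        simp only [d1]
        by_cases hI : I s
        · rw [if_pos hI]
          have := (hb _ hI).2
          omega
        · rw [if_neg hI]
    have hB : 0 ≤ ∑ s ∈ Ico (p+1) e, d2 s * (- gs r (a1 s)) := by
      have hd2nn : ∀ s, 0 ≤ d2 s := by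
        intro s
        simp only [d2]
        by_cases hI : I s
        · rw [if_pos hI]
          have := (hb _ hI).1
          omega
        · rw [if_neg hI]
      have := abel_pre d2 (fun s => - gs r (a1 s)) (p+1) e (by omega) ?_ ?_
      · refine le_trans ?_ this
        refine mul_nonneg (hd2nn e) ?_
        rw [Finset.sum_neg_distrib]
        have := hii e (by omega) le_rfl
        omega
      · intro s h2 h3
        simp only [d2]
        have m1 := hmono r s (s+1) (by omega) (by omega)
        have m2 := hmono (r+2) s (s+1) (by omega) (by omega)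
        have m3 := hmono (r+1) s (s+1) (by omega) (by omega)
        have m4 := hmono r p s (by omega) (by omega)
        have m5 := hmono (r+2) p s (by omega) (by omega)
        by_cases hI' : I (s+1)
        · obtain ⟨h4, h5⟩ := hI'
          have hI : I s := ⟨by omega, by omega⟩
          rw [if_pos ⟨h4, h5⟩, if_pos hI]
          omega
        · rw [if_neg hI']
          by_cases hI : I s
          · rw [if_pos hI]
            have := (hb _ hI).1
            omega
          · rw [if_neg hI]
      · intro s h2 h3
        rw [Finset.sum_neg_distrib]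
        have := hii s (by omega) h3
        omega
    have hC : 0 ≤ ((c' (a2 p) p - c' (a2 p+1) p) - (c (a1 p) p - c (a1 p+1) p)) := by
      have e1 := ha1 r p (by omega)
      have e2 := ha1 (r+1) p (by omega)
      have e3 := ha2 r p (by omega)
      have e4 := ha2 (r+1) p (by omega)
      rcases hcase with ⟨h2, h3⟩ | ⟨h2, h3⟩
      · rw [h2, h3, hc'1 (r+1+1) p (by omega), hc'2 p hIp (by rw [hτ, h3]; simp)]
        have : c (r+1+1) p = v - 1 := hIp.2
        omega
      · rw [h2, h3, hc'1 r p (by omega), hc'3 p hIp (by rw [hτ, h3]; simp)]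
        have : c (r+1+1) p = v - 1 := hIp.2
        omega
    omega

end Pool.Agent.R805.Stab
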