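import Pool.Agent.R805.Stab.Invariance

/-! # Upper and lower bounds for the scores -/

namespace Pool.Agent.R805.Stab

open Finset

/-- lowest value of `c x` -/
def LL (m x : ℕ) : ℕ := m - x

/-- highest value of `c x` -/
def UU (n m x : ℕ) : ℕ := m - (x - (n - m))

def gx (x A : ℕ) : ℤ := (if A = x then 1 else 0) - (if A + 1 = x then 1 else 0)

def GG (a : ℕ → ℕ) (x s : ℕ) : ℤ := ∑ i ∈ range s, gx x (a i)

lemma CArr.ge {n m : ℕ} {c : ℕ → ℕ → ℤ} (hc : CArr n m c) (s : ℕ) :
    ∀ x ≤ n, (m : ℤ) - x ≤ c x s := by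
  intro x
  induction x with
  | zero => intro _; rw [hc.top]; simp
  | succ x ih =>
    intro hx
    have h1 := ih (by omega)
    have h2 := hc.step1 x s (by omega)
    push_cast
    omega

lemma CArr.le {n m : ℕ} {c : ℕ → ℕ → ℤ} (hc : CArr n m c) (s : ℕ) :
    ∀ x ≤ n, c x s ≤ m := by
  intro x
  induction x with
  | zero => intro _; rw [hc.top]
  | succ x ih =>
    intro hx
    have h1 := ih (by omega)
    have h2 := hc.step0 x s (by omega)
    omega

lemma CArr.le' {n m : ℕ} {c : ℕ → ℕ → ℤ} (hc : CArr n m c) (s : ℕ) :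
    ∀ d x, x + d = n → 0 ≤ c x s ∧ c x s ≤ d := by
  intro d
  induction d with
  | zero =>
    intro x hx
    have : x = n := by omega
    subst this
    rw [hc.bot]; simp
  | succ d ih =>
    intro x hx
    have h1 := ih (x+1) (by omega)
    have h2 := hc.step1 x s (by omega)
    have h3 := hc.step0 x s (by omega)
    push_cast
    omega

lemma CArr.LL_le {n m : ℕ} {c : ℕ → ℕ → ℤ} (hc : CArr n m c) (s x : ℕ) (hx : x ≤ n) :
    (LL m x : ℤ) ≤ c x s := by
  have h1 := hc.ge s x hx
  have h2 := (hc.le' s (n - x) x (by omega)).1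
  unfold LL
  omega

lemma CArr.le_UU {n m : ℕ} {c : ℕ → ℕ → ℤ} (hc : CArr n m c) (hm : m ≤ n) (s x : ℕ)
    (hx : x ≤ n) : c x s ≤ (UU n m x : ℤ) := by
  have h1 := hc.le s x hx
  have h2 := (hc.le' s (n - x) x (by omega)).2
  unfold UU
  omega

/-- decomposition of the score -/
lemma score_decomp {n m : ℕ} (a : ℕ → ℕ) (e : ℕ) (ha : ∀ s < e, a s < n)
    (c : ℕ → ℕ → ℤ) :
    Score a e c = (∑ s ∈ range e, if a s < m then 1 else 0)
      + ∑ x ∈ range (n+1), ∑ s ∈ range e, (c x s - (LL m x : ℤ)) * gx x (a s) := by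
  rw [Finset.sum_comm, ← Finset.sum_add_distrib]
  unfold Score
  refine Finset.sum_congr rfl (fun s hs => ?_)
  have has := ha s (Finset.mem_range.1 hs)
  have e1 : ∑ x ∈ range (n+1), (c x s - (LL m x : ℤ)) * gx x (a s)
      = (c (a s) s - (LL m (a s) : ℤ)) - (c (a s + 1) s - (LL m (a s + 1) : ℤ)) := by
    unfold gx
    simp only [mul_sub, Finset.sum_sub_distrib, mul_ite, mul_one, mul_zero,
      Finset.sum_ite_eq, Finset.mem_range]
    rw [if_pos (by omega), if_pos (by omega)]
  rw [e1]
  unfold LL
  split_ifs with h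
  · omega
  · omega

lemma abel_le (y g : ℕ → ℤ) (δ : ℤ) (e : ℕ)
    (hy : ∀ s, s < e → y (s+1) ≤ y s)
    (hg : ∀ s, s ≤ e → ∑ i ∈ range s, g i ≤ δ) :
    ∑ i ∈ range e, y i * g i ≤ y 0 * δ - y e * (δ - ∑ i ∈ range e, g i) := by
  induction e with
  | zero => simp
  | succ k ih =>
    have ih' := ih (fun s h1 => hy s (by omega)) (fun s h1 => hg s (by omega))
    have h1 := hy k (by omega)
    have h2 := hg (k+1) le_rfl
    rw [Finset.sum_range_succ] at h2
    rw [Finset.sum_range_succ, Finset.sum_range_succ]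
    nlinarith

lemma abel_eq (y g : ℕ → ℤ) (δ : ℤ) (e : ℕ)
    (hy : ∀ s, s < e → y (s+1) ≠ y s → ∑ i ∈ range (s+1), g i = δ) :
    ∑ i ∈ range e, y i * g i = y 0 * δ - y e * (δ - ∑ i ∈ range e, g i) := by
  induction e with
  | zero => simp
  | succ k ih =>
    have ih' := ih (fun s h1 => hy s (by omega))
    by_cases h1 : y (k+1) = y k
    · rw [Finset.sum_range_succ, Finset.sum_range_succ, ih', h1]
      ring
    · have h2 := hy k (by omega) h1
      rw [Finset.sum_range_succ, ih', h2]
      rw [Finset.sum_range_succ] at h2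
      rw [← h2]
      ring

def KK (n m : ℕ) (δ : ℕ → ℤ) : ℤ :=
  ∑ x ∈ range (n+1), ((UU n m x : ℤ) - (LL m x : ℤ)) * δ x

theorem score_le {n m : ℕ} (hm : m ≤ n) {a : ℕ → ℕ} {e : ℕ} (ha : ∀ s < e, a s < n)
    {δ : ℕ → ℤ} (hδ : ∀ x, 0 ≤ δ x) (hG : ∀ x, 0 < x → x < n → ∀ s ≤ e, GG a x s ≤ δ x)
    {c : ℕ → ℕ → ℤ} (hc : CArr n m c) :
    Score a e c ≤ (∑ s ∈ range e, if a s < m then 1 else 0) + KK n m δ := by
  rw [score_decomp a e ha c (m := m)]
  unfold KK
  have : ∀ x ∈ range (n+1), ∑ s ∈ range e, (c x s - (LL m x : ℤ)) * gx x (a s) ≤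
      ((UU n m x : ℤ) - (LL m x : ℤ)) * δ x := by
    intro x hx
    have hx' : x ≤ n := by
      have := Finset.mem_range.1 hx
      omega
    by_cases h0 : x = 0
    · subst h0
      have e1 : ∑ s ∈ range e, (c 0 s - (LL m 0 : ℤ)) * gx 0 (a s) = 0 := by
        apply Finset.sum_eq_zero
        intro s _
        rw [hc.top]
        unfold LL
        simp
      rw [e1]
      unfold UU LL
      have : m - (0 - (n - m)) = m - 0 := by omega
      rw [this]
      simp
    · by_cases hn : x = n
      · subst hn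
        have e1 : ∑ s ∈ range e, (c x s - (LL m x : ℤ)) * gx x (a s) = 0 := by
          apply Finset.sum_eq_zero
          intro s _
          rw [hc.bot]
          unfold LL
          have : m - x = 0 := by omega
          rw [this]
          simp
        rw [e1]
        unfold UU LL
        have : m - (x - (x - m)) = m - x := by omega
        rw [this]
        simp
      · have h1 := abel_le (fun s => c x s - (LL m x : ℤ)) (fun s => gx x (a s)) (δ x) e
          (fun s _ => by have := hc.anti x s hx'; omega)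
          (fun s hs => hG x (by omega) (by omega) s hs)
        have h2 := hG x (by omega) (by omega) e le_rfl
        have h3 := hc.LL_le e x hx'
        have h4 := hc.le_UU hm 0 x hx'
        have h5 := hδ x
        have h6 : 0 ≤ (c x e - (LL m x : ℤ)) * (δ x - ∑ i ∈ range e, gx x (a i)) := by
          apply mul_nonneg
          · omega
          · unfold GG at h2
            omega
        have h7 : (c x 0 - (LL m x : ℤ)) * δ x ≤ ((UU n m x : ℤ) - (LL m x : ℤ)) * δ x := by
          apply mul_le_mul_of_nonneg_right _ h5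
          omega
        omega
  have := Finset.sum_le_sum this
  omega

theorem score_eq {n m : ℕ} (hm : m ≤ n) {a : ℕ → ℕ} {e : ℕ} (ha : ∀ s < e, a s < n)
    {δ : ℕ → ℤ} {c : ℕ → ℕ → ℤ} (hc : CArr n m c)
    (h0 : ∀ x, 0 < x → x < n → δ x ≠ 0 → c x 0 = UU n m x)
    (hd : ∀ x, 0 < x → x < n → ∀ s < e, c x (s+1) ≠ c x s → GG a x (s+1) = δ x)
    (he : ∀ x, 0 < x → x < n → c x e = LL m x) :
    Score a e c = (∑ s ∈ range e, if a s < m then 1 else 0) + KK n m δ := by
  rw [score_decomp a e ha c (m := m)]
  unfold KK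
  congr 1
  refine Finset.sum_congr rfl (fun x hx => ?_)
  have hx' : x ≤ n := by
    have := Finset.mem_range.1 hx
    omega
  by_cases hx0 : x = 0
  · subst hx0
    have e1 : ∑ s ∈ range e, (c 0 s - (LL m 0 : ℤ)) * gx 0 (a s) = 0 := by
      apply Finset.sum_eq_zero
      intro s _
      rw [hc.top]
      unfold LL
      simp
    rw [e1]
    unfold UU LL
    have : m - (0 - (n - m)) = m - 0 := by omega
    rw [this]
    simp
  · by_cases hn : x = n
    · subst hn
      have e1 : ∑ s ∈ range e, (c x s - (LL m x : ℤ)) * gx x (a s) = 0 := by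
        apply Finset.sum_eq_zero
        intro s _
        rw [hc.bot]
        unfold LL
        have : m - x = 0 := by omega
        rw [this]
        simp
      rw [e1]
      unfold UU LL
      have : m - (x - (x - m)) = m - x := by omega
      rw [this]
      simp
    · rw [abel_eq (fun s => c x s - (LL m x : ℤ)) (fun s => gx x (a s)) (δ x) e
        (fun s hs hne => hd x (by omega) (by omega) s hs (fun h => hne (by rw [h])))]
      rw [he x (by omega) (by omega)]
      by_cases h5 : δ x = 0
      · rw [h5]; ring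
      · rw [h0 x (by omega) (by omega) h5]
        ring

/-- the best scores of a straight tableau -/
theorem best_straight {N n m : ℕ} (hm : m ≤ n) {R : ℕ → ℕ × ℕ} (hR : Skew N (fun _ => 0) R)
    (hlt : ∀ s < N, (R s).1 < n) {e : ℕ} (he : e ≤ N) :
    Best n m (fun i => (R i).1) e (∑ s ∈ range e, if (R s).1 < m then 1 else 0) := by
  have hK : KK n m (fun _ => 0) = 0 := by unfold KK; simp
  constructor
  · intro c hc
    have := score_le (δ := fun _ => 0) hm (a := fun i => (R i).1) (e := e)
      (fun s hs => hlt s (by omega)) (fun _ => le_rfl) ?_ hc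
    · rw [hK, add_zero] at this
      exact this
    · intro x hx0 hxn s hs
      obtain ⟨r, rfl⟩ : ∃ r, x = r + 1 := ⟨x - 1, by omega⟩
      have h1 := hR.shape s (by omega) r
      unfold nu at h1
      simp only [zero_add] at h1
      unfold GG gx
      rw [Finset.sum_sub_distrib]
      have h3 : ∀ i, (R i).1 + 1 = r + 1 ↔ (R i).1 = r := fun i => by omega
      simp only [h3]
      have h2 : ((∑ i ∈ range s, if (R i).1 = r + 1 then 1 else 0 : ℕ) : ℤ) ≤
        ((∑ i ∈ range s, if (R i).1 = r then 1 else 0 : ℕ) : ℤ) := by exact_mod_cast h1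
      push_cast at h2
      omega
  · refine ⟨fun x _ => LL m x, ?_, ?_⟩
    · refine ⟨?_, ?_, ?_, ?_, ?_⟩
      · intro s; simp [LL]
      · intro s; simp [LL]; omega
      · intro x s _; simp only [LL]; omega
      · intro x s _; simp only [LL]; omega
      · intro x s _; exact le_rfl
    · have := score_eq (δ := fun _ => 0) (c := fun x _ => (LL m x : ℤ)) hm
        (a := fun i => (R i).1) (e := e) (fun s hs => hlt s (by omega)) ?_ ?_ ?_ ?_
      · rw [hK, add_zero] at this
        exact this
      · refine ⟨?_, ?_, ?_, ?_, ?_⟩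
        · intro s; simp [LL]
        · intro s; simp [LL]; omega
        · intro x s _; simp only [LL]; omega
        · intro x s _; simp only [LL]; omega
        · intro x s _; exact le_rfl
      · intro x _ _ h; exact absurd rfl h
      · intro x _ _ s _ h; exact absurd rfl h
      · intro x _ _; rfl

end Pool.Agent.R805.Stab
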