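import Mathlib

/-! # Jeu de taquin for standard skew tableaux, and stabilization of permutations

Rows, columns and entries are numbered from `0`.  A standard skew tableau with `N` entries
`0, …, N-1` is recorded by the function `T : ℕ → ℕ × ℕ` giving the cell (row, column) of each
entry, together with the inner shape `μ : ℕ → ℕ` (`μ r` cells are missing at the left of row `r`).
-/

namespace Pool.Agent.R805.Stab

/-- The cell `c` is directly to the right of, or directly below, the cell `h`. -/
def Adj (h c : ℕ × ℕ) : Prop := c = (h.1, h.2 + 1) ∨ c = (h.1 + 1, h.2)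

/-- `Slide N T h T'`: starting with the empty cell `h`, jeu de taquin moves transform the filling
`T` (entries `0, …, N-1`) into `T'`.  As long as there is an entry directly to the right of or
directly below the empty cell, the smaller one of these moves into the empty cell, and the cell
that it leaves becomes the empty cell. -/
inductive Slide (N : ℕ) : (ℕ → ℕ × ℕ) → ℕ × ℕ → (ℕ → ℕ × ℕ) → Prop
  | stop (T : ℕ → ℕ × ℕ) (h : ℕ × ℕ) (hs : ∀ e < N, ¬ Adj h (T e)) : Slide N T h T
  | move (T : ℕ → ℕ × ℕ) (h : ℕ × ℕ) (e : ℕ) (he : e < N) (ha : Adj h (T e))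
      (hmin : ∀ e' < N, Adj h (T e') → e ≤ e') (T' : ℕ → ℕ × ℕ)
      (hrest : Slide N (Function.update T e h) (T e) T') : Slide N T h T'

/-- One inner slide: choose a corner `(r, μ r - 1)` of the inner shape `μ`, and slide into it. -/
inductive InnerSlide (N : ℕ) : (ℕ → ℕ) × (ℕ → ℕ × ℕ) → (ℕ → ℕ) × (ℕ → ℕ × ℕ) → Prop
  | mk (μ : ℕ → ℕ) (T T' : ℕ → ℕ × ℕ) (r : ℕ) (hr : μ (r + 1) < μ r)
      (hs : Slide N T (r, μ r - 1) T') :
      InnerSlide N (μ, T) (Function.update μ r (μ r - 1), T')

/-- `R` is obtained from the skew tableau `T` of inner shape `μ` by inner slides, performed until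
the inner shape is empty. -/
def IsRect (N : ℕ) (μ : ℕ → ℕ) (T R : ℕ → ℕ × ℕ) : Prop :=
  Relation.ReflTransGen (InnerSlide N) (μ, T) (fun _ => 0, R)

/-- The cell of the entry `e` in the tableaux `T_w^{(k)}`: if `e = w j + i * n`, then `e` is in row
`n - 1 - j` and column `j + i`. (For `n = 0` there are no entries; the value is irrelevant.) -/
def cellOf {n : ℕ} (w : Equiv.Perm (Fin n)) (e : ℕ) : ℕ × ℕ :=
  if h : 0 < n then
    (n - 1 - (w.symm ⟨e % n, Nat.mod_lt e h⟩ : ℕ), (w.symm ⟨e % n, Nat.mod_lt e h⟩ : ℕ) + e / n)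
  else (0, 0)

/-- The inner shape of `T_w^{(k)}`. -/
def innerOf (n : ℕ) : ℕ → ℕ := fun r => n - 1 - r

/-- `w` stabilizes at `k`: in the rectification of `T_w^{(k)}` (which has the entries
`0, …, k n - 1`), the entries `(k-1) n, …, k n - 1` are in the same rows as in `T_w^{(k)}`. -/
def Stabilizes {n : ℕ} (w : Equiv.Perm (Fin n)) (k : ℕ) : Prop :=
  ∃ R, IsRect (k * n) (innerOf n) (cellOf w) R ∧
    ∀ e, (k - 1) * n ≤ e → e < k * n → (R e).1 = (cellOf w e).1

/-- `stab w` is the least `k ≥ 1` at which `w` stabilizes. -/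
noncomputable def stab {n : ℕ} (w : Equiv.Perm (Fin n)) : ℕ :=
  sInf {k | 1 ≤ k ∧ Stabilizes w k}

end Pool.Agent.R805.Stab
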