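import Pool.Agent.R805.Stab.Periodic

/-! # The identity is the unique permutation with `stab w = n` -/

namespace Pool.Agent.R805.Stab

open Finset

def PP {n : ℕ} (w : Equiv.Perm (Fin n)) (x : ℕ) : ℕ :=
  if h : x < n then (w ⟨n - 1 - x, by omega⟩ : ℕ) else 0

section
variable {n : ℕ} (w : Equiv.Perm (Fin n))

lemma per (hn : 0 < n) : Per n (PP w) (fun i => (cellOf w i).1) := by
  refine ⟨hn, ?_, ?_, ?_⟩
  · intro x hx
    unfold PP
    rw [dif_pos hx]
    exact Fin.isLt _
  · intro s
    unfold cellOf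
    rw [dif_pos hn]
    show n - 1 - _ < n
    omega
  · intro s x hx
    unfold cellOf PP
    rw [dif_pos hn, dif_pos hx]
    show n - 1 - _ = x ↔ _
    have hlt := (w.symm ⟨s % n, Nat.mod_lt s hn⟩).isLt
    constructor
    · intro h
      have h1 : (⟨n - 1 - x, by omega⟩ : Fin n) = w.symm ⟨s % n, Nat.mod_lt s hn⟩ := by
        apply Fin.ext
        show n - 1 - x = _
        omega
      rw [h1, Equiv.apply_symm_apply]
    · intro h
      have h1 : w ⟨n - 1 - x, by omega⟩ = ⟨s % n, Nat.mod_lt s hn⟩ := Fin.ext h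
      rw [← h1, Equiv.symm_apply_apply]
      show n - 1 - (n - 1 - x) = x
      omega

lemma count_eq {P a : ℕ → ℕ} (h : Per n P a) {x : ℕ} (hx : x < n) (s : ℕ) :
    (∑ i ∈ range s, if a i = x then 1 else 0) = s / n + if P x < s % n then 1 else 0 := by
  induction s with
  | zero => simp
  | succ s ih =>
    rw [Finset.sum_range_succ, ih]
    have h1 := h.iff s x hx
    simp only [h1]
    have h2 := h.lt x hx
    have h3 := Nat.mod_lt s h.pos
    have h4 := succ_mod n s h.pos
    have h5 : (s+1) / n = if s % n + 1 = n then s / n + 1 else s / n := by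
      have e1 := Nat.div_add_mod s n
      have e2 := Nat.div_add_mod (s+1) n
      rw [h4] at e2
      split_ifs at e2 ⊢ with h6
      · have : n * ((s+1)/n) = n * (s/n + 1) := by
          rw [Nat.mul_add]; omega
        exact Nat.eq_of_mul_eq_mul_left h.pos this
      · have : n * ((s+1)/n) = n * (s/n) := by omega
        exact Nat.eq_of_mul_eq_mul_left h.pos this
    rw [h5, h4]
    split_ifs <;> omega

lemma skew_cell (hn : 0 < n) (N : ℕ) : Skew N (innerOf n) (cellOf w) := by
  have hper := per w hn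
  constructor
  · intro s _
    unfold nu
    have h1 := hper.alt s
    rw [count_eq hper h1 s]
    have h2 := (hper.iff s _ h1).1 rfl
    rw [h2]
    rw [if_neg (lt_irrefl _)]
    unfold innerOf
    have h3 : (cellOf w s).2 = (w.symm ⟨s % n, Nat.mod_lt s hn⟩ : ℕ) + s / n := by
      unfold cellOf
      rw [dif_pos hn]
    have h4 : (cellOf w s).1 = n - 1 - (w.symm ⟨s % n, Nat.mod_lt s hn⟩ : ℕ) := by
      unfold cellOf
      rw [dif_pos hn]
    have h5 := (w.symm ⟨s % n, Nat.mod_lt s hn⟩).isLt
    rw [h3, h4]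
    omega
  · intro s _ r
    unfold nu innerOf
    by_cases hr : r + 1 < n
    · rw [count_eq hper hr s, count_eq hper (by omega : r < n) s]
      split_ifs <;> omega
    · have h1 : (∑ i ∈ range s, if (cellOf w i).1 = r + 1 then 1 else 0) = 0 := by
        apply Finset.sum_eq_zero
        intro i _
        have := hper.alt i
        rw [if_neg (by omega)]
      have h2 : n - 1 - (r+1) = 0 := by omega
      show n - 1 - (r+1) + (∑ i ∈ range s, if (cellOf w i).1 = r + 1 then 1 else 0) ≤ _
      rw [h1, h2]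
      omega

lemma rows_eq (hn : 0 < n) {N : ℕ} {R : ℕ → ℕ × ℕ} (hR : IsRect N (innerOf n) (cellOf w) R)
    {e : ℕ} (he : e < N)
    (h1 : ∀ m ≤ n, ∃ K : ℤ, ∀ e', e ≤ e' → Best n m (fun i => (cellOf w i).1) e'
      ((∑ s ∈ range e', if (cellOf w s).1 < m then 1 else 0) + K)) :
    (R e).1 = (cellOf w e).1 := by
  have hper := per w hn
  obtain ⟨s1, s2, s3⟩ := rect_inv hR (skew_cell w hn N) (n := n) (fun s _ => hper.alt s)
  simp only at s1 s2 s3
  have key : ∀ m ≤ n, ((R e).1 < m ↔ (cellOf w e).1 < m) := by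
    intro m hm
    obtain ⟨K, hK⟩ := h1 m hm
    have b1 := s3 m e he.le _ (hK e le_rfl)
    have b2 := s3 m (e+1) he _ (hK (e+1) (by omega))
    have c1 := best_straight hm s1 s2 he.le
    have c2 := best_straight hm s1 s2 (show e + 1 ≤ N from he)
    have d1 := Best.unique b1 c1
    have d2 := Best.unique b2 c2
    rw [Finset.sum_range_succ, Finset.sum_range_succ] at d2
    have d3 : (if (cellOf w e).1 < m then (1:ℤ) else 0) = if (R e).1 < m then (1:ℤ) else 0 := by
      linarith
    split_ifs at d3 with h3 h4 h4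
    · exact ⟨fun _ => h3, fun _ => h4⟩
    · norm_num at d3
    · norm_num at d3
    · exact ⟨fun h => absurd h h4, fun h => absurd h h3⟩
  have k1 := key ((cellOf w e).1 + 1) (hper.alt e)
  have k2 := key ((cellOf w e).1) (hper.alt e).le
  have := k1.2 (by omega)
  have h5 : ¬ (R e).1 < (cellOf w e).1 := fun h => absurd (k2.1 h) (lt_irrefl _)
  omega

lemma exists_rect (hn : 0 < n) (N : ℕ) : ∃ R, IsRect N (innerOf n) (cellOf w) R :=
  rect_exists (n := n) _ _ _ (skew_cell w hn N) (fun r hr => by unfold innerOf; omega) rfl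

/-- for all rectifications `R` -/
lemma stab_A (hn : 0 < n) {k : ℕ} (hk : n ≤ k) {R : ℕ → ℕ × ℕ}
    (hR : IsRect (k * n) (innerOf n) (cellOf w) R) {e : ℕ} (he1 : (k-1) * n ≤ e)
    (he2 : e < k * n) : (R e).1 = (cellOf w e).1 := by
  refine rows_eq w hn hR he2 (fun m hm => ⟨KK n m (dl (PP w)), fun e' he' => ?_⟩)
  refine best_A hm (per w hn) ?_
  exact (Nat.mul_le_mul_right n (by omega : n - 1 ≤ k - 1)).trans (he1.trans he')

lemma stab_B (hn : 0 < n) {k : ℕ} (hk : n - 1 ≤ k) {R : ℕ → ℕ × ℕ} {x0 : ℕ} (hx0 : 0 < x0)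
    (hx0n : x0 < n) (hx : ¬ PP w x0 < PP w (x0-1))
    (hR : IsRect (k * n) (innerOf n) (cellOf w) R) {e : ℕ} (he1 : (k-1) * n ≤ e)
    (he2 : e < k * n) : (R e).1 = (cellOf w e).1 := by
  refine rows_eq w hn hR he2 (fun m hm => ⟨KK n m (dl (PP w)), fun e' he' => ?_⟩)
  refine best_B hm (per w hn) ?_ hx0 hx0n hx
  exact (Nat.mul_le_mul_right n (by omega : n - 2 ≤ k - 1)).trans (he1.trans he')

lemma exists_ascent (hn : 0 < n) (hw : w ≠ 1) : ∃ x0, 0 < x0 ∧ x0 < n ∧
    ¬ PP w x0 < PP w (x0-1) := by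
  by_contra hno
  push Not at hno
  apply hw
  have hup : ∀ x, x < n → PP w x ≤ n - 1 - x := by
    intro x
    induction x with
    | zero =>
      intro _
      have := (per w hn).lt 0 hn
      omega
    | succ x ih =>
      intro hx
      have h1 := ih (by omega)
      have h2 := hno (x+1) (by omega) hx
      have h3 : x + 1 - 1 = x := by omega
      rw [h3] at h2
      omega
  have hdn : ∀ d x, x + 1 + d = n → d ≤ PP w x := by
    intro d
    induction d with
    | zero => intro x _; omega
    | succ d ih =>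
      intro x hx
      have h1 := ih (x+1) (by omega)
      have h2 := hno (x+1) (by omega) (by omega)
      have h3 : x + 1 - 1 = x := by omega
      rw [h3] at h2
      omega
  ext j
  rw [Equiv.Perm.one_apply]
  have hj := j.isLt
  have h1 := hup (n - 1 - j) (by omega)
  have h2 := hdn j (n - 1 - j) (by omega)
  unfold PP at h1 h2
  rw [dif_pos (by omega)] at h1 h2
  have h3 : (⟨n - 1 - (n - 1 - (j:ℕ)), by omega⟩ : Fin n) = j := by
    apply Fin.ext
    show n - 1 - (n - 1 - (j:ℕ)) = j
    omega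
  rw [h3] at h1 h2
  omega

lemma id_not (hn : 0 < n) {k : ℕ} (hk1 : 1 ≤ k) (hk : k < n) {R : ℕ → ℕ × ℕ}
    (hR : IsRect (k * n) (innerOf n) (cellOf (1 : Equiv.Perm (Fin n))) R) :
    (R ((k-1)*n)).1 ≠ (cellOf (1 : Equiv.Perm (Fin n)) ((k-1)*n)).1 := by
  have hper := per (1 : Equiv.Perm (Fin n)) hn
  set w : Equiv.Perm (Fin n) := 1 with hw
  obtain ⟨s1, s2, s3⟩ := rect_inv hR (skew_cell w hn (k*n)) (n := n) (fun s _ => hper.alt s)
  simp only at s1 s2 s3
  have hrow : ∀ s, (cellOf w s).1 = n - 1 - s % n := by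
    intro s
    unfold cellOf
    rw [dif_pos hn]
    rfl
  -- the array with the missing row `s / (n-1)`
  let c : ℕ → ℕ → ℤ := fun x s => ((n - x : ℕ) : ℤ) - if x ≤ min (n-1) (s / (n-1)) then 1 else 0
  have hc : CArr n (n-1) c := by
    refine ⟨?_, ?_, ?_, ?_, ?_⟩
    · intro s
      simp only [c]
      rw [if_pos (Nat.zero_le _)]
      omega
    · intro s
      simp only [c]
      rw [if_neg (by omega)]
      omega
    · intro x s hx
      simp only [c]
      split_ifs <;> omega
    · intro x s hx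
      simp only [c]
      split_ifs <;> omega
    · intro x s hx
      simp only [c]
      have h1 : s / (n-1) ≤ (s+1) / (n-1) := Nat.div_le_div_right (by omega)
      split_ifs <;> omega
  have hscore : Score (fun i => (cellOf w i).1) (k*n) c = k * n := by
    unfold Score
    have : ∀ s ∈ range (k*n), (c ((cellOf w s).1) s - c ((cellOf w s).1 + 1) s) = 1 := by
      intro s hs
      have hs' := Finset.mem_range.1 hs
      rw [hrow s]
      simp only [c]
      have hmod := Nat.mod_lt s hn
      have hdm := Nat.div_add_mod s n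
      set q := s / n with hq
      set r := s % n with hr
      set h := s / (n-1) with hh
      have hd2 : (n-1) * h ≤ s := Nat.mul_div_le s (n-1)
      have hd3 : s < (n-1) * (h + 1) := by
        have := Nat.lt_mul_div_succ s (show 0 < n - 1 by omega)
        exact this
      have hkn : s < (n-1) * n := lt_of_lt_of_le hs' (Nat.mul_le_mul_right n (by omega))
      have hhn : h < n := by
        by_contra hge
        push Not at hge
        have : (n-1) * n ≤ (n-1) * h := Nat.mul_le_mul_left _ hge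
        omega
      have hne : min (n-1) h ≠ n - 1 - r := by
        rw [Nat.min_eq_right (by omega)]
        intro heq
        have hr' : r + h = n - 1 := by omega
        obtain ⟨n', rfl⟩ : ∃ n', n = n' + 1 := ⟨n - 1, by omega⟩
        have e0 : n' + 1 - 1 = n' := by omega
        rw [e0] at hd2 hd3 hr'
        rcases Nat.lt_or_ge q h with hlt | hge
        · have e1 : (n'+1) * (q+1) ≤ (n'+1) * h := Nat.mul_le_mul_left _ hlt
          nlinarith
        · have e1 : (n'+1) * h ≤ (n'+1) * q := Nat.mul_le_mul_left _ hge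
          nlinarith
      split_ifs <;> omega
    rw [Finset.sum_congr rfl this]
    simp
  have hb := best_straight (N := k*n) (n := n) (m := n-1) (by omega) s1 s2 le_rfl
  -- transport
  have hle : (k * n : ℤ) ≤ ∑ s ∈ range (k*n), if (R s).1 < n - 1 then 1 else 0 := by
    -- use the best value of the word of `w`
    obtain ⟨K, hK⟩ : ∃ V, Best n (n-1) (fun i => (cellOf w i).1) (k*n) V := by
      have hfin : ∃ V : ℤ, (∃ c, CArr n (n-1) c ∧ Score (fun i => (cellOf w i).1) (k*n) c = V) ∧
          ∀ V', (∃ c, CArr n (n-1) c ∧ Score (fun i => (cellOf w i).1) (k*n) c = V') → V' ≤ V := by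
        refine Int.exists_greatest_of_bdd ⟨k * n, ?_⟩ ⟨_, c, hc, hscore⟩
        rintro V' ⟨c', hc', rfl⟩
        unfold Score
        have : ∀ s ∈ range (k*n), (c' ((cellOf w s).1) s - c' ((cellOf w s).1 + 1) s) ≤ 1 := by
          intro s _
          have := hc'.step1 _ s (hper.alt s)
          omega
        refine (Finset.sum_le_sum this).trans ?_
        simp
      obtain ⟨V, h1, h2⟩ := hfin
      exact ⟨V, fun c hc => h2 _ ⟨c, hc, rfl⟩, h1⟩
    have h1 := s3 (n-1) (k*n) le_rfl _ hK
    have h2 := Best.unique h1 hb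
    rw [← h2, ← hscore]
    exact hK.1 c hc
  have hall : ∀ s ∈ range (k*n), (if (R s).1 < n - 1 then (1:ℤ) else 0) = 1 := by
    have hle1 : ∀ s ∈ range (k*n), (if (R s).1 < n - 1 then (1:ℤ) else 0) ≤ 1 := by
      intro s _
      split_ifs <;> norm_num
    have hsum1 : ∑ s ∈ range (k*n), (1:ℤ) = k * n := by simp
    have heq : ∑ s ∈ range (k*n), (if (R s).1 < n - 1 then (1:ℤ) else 0)
        = ∑ s ∈ range (k*n), (1:ℤ) :=
      le_antisymm (Finset.sum_le_sum hle1) (by rw [hsum1]; exact hle)
    exact (Finset.sum_eq_sum_iff_of_le hle1).1 heq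
  have hmem : (k-1)*n ∈ range (k*n) := by
    rw [Finset.mem_range]
    exact Nat.mul_lt_mul_of_pos_right (by omega) hn
  have hlast := hall _ hmem
  have hR2 : (R ((k-1)*n)).1 < n - 1 := by
    by_contra hno
    rw [if_neg hno] at hlast
    norm_num at hlast
  rw [hrow, Nat.mul_mod_left]
  omega

end

/-- independence of the rectification -/
theorem stabilizes_iff_forall {n : ℕ} (hn : 1 ≤ n) (w : Equiv.Perm (Fin n)) :
    (w = 1 → (∀ k, 1 ≤ k → (Stabilizes w k ↔ n ≤ k))) ∧
    (w ≠ 1 → 2 ≤ n ∧ Stabilizes w (n-1)) := by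
  constructor
  · intro hw k hk
    subst hw
    constructor
    · rintro ⟨R, hR, h⟩
      by_contra hlt
      push Not at hlt
      exact id_not hn hk hlt hR (h _ le_rfl (Nat.mul_lt_mul_of_pos_right (by omega) hn))
    · intro hnk
      obtain ⟨R, hR⟩ := exists_rect (1 : Equiv.Perm (Fin n)) hn (k * n)
      exact ⟨R, hR, fun e h1 h2 => stab_A _ hn hnk hR h1 h2⟩
  · intro hw
    obtain ⟨x0, h1, h2, h3⟩ := exists_ascent w hn hw
    refine ⟨by omega, ?_⟩
    obtain ⟨R, hR⟩ := exists_rect w hn ((n-1) * n)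
    exact ⟨R, hR, fun e h4 h5 => stab_B w hn le_rfl h1 h2 h3 hR h4 h5⟩

theorem stab_eq_iff {n : ℕ} (hn : 1 ≤ n) (w : Equiv.Perm (Fin n)) : stab w = n ↔ w = 1 := by
  obtain ⟨h1, h2⟩ := stabilizes_iff_forall hn w
  constructor
  · intro h
    by_contra hne
    obtain ⟨h3, h4⟩ := h2 hne
    have : stab w ≤ n - 1 := Nat.sInf_le ⟨by omega, h4⟩
    omega
  · intro h
    have h5 := h1 h
    apply le_antisymm
    · exact Nat.sInf_le ⟨hn, (h5 n hn).2 le_rfl⟩
    · refine le_csInf ⟨n, hn, (h5 n hn).2 le_rfl⟩ ?_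
      rintro k ⟨hk1, hk2⟩
      exact (h5 k hk1).1 hk2

end Pool.Agent.R805.Stab
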