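import Pool.Agent.R805.Stab.SlideLemmas

/-! # Invariance of the best scores under slides; existence of rectifications -/

namespace Pool.Agent.R805.Stab

open Finset

def Best (n m : ℕ) (a : ℕ → ℕ) (e : ℕ) (V : ℤ) : Prop :=
  (∀ c, CArr n m c → Score a e c ≤ V) ∧ ∃ c, CArr n m c ∧ Score a e c = V

/-- scores for `a` are dominated by scores for `b` -/
def Dom (n m : ℕ) (a b : ℕ → ℕ) (e : ℕ) : Prop :=
  ∀ c, CArr n m c → ∃ c', CArr n m c' ∧ Score a e c ≤ Score b e c'

lemma Dom.refl (n m : ℕ) (a : ℕ → ℕ) (e : ℕ) : Dom n m a a e := fun c hc => ⟨c, hc, le_rfl⟩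

lemma Dom.trans {n m : ℕ} {a b d : ℕ → ℕ} {e : ℕ} (h1 : Dom n m a b e) (h2 : Dom n m b d e) :
    Dom n m a d e := by
  intro c hc
  obtain ⟨c', hc', h⟩ := h1 c hc
  obtain ⟨c'', hc'', h'⟩ := h2 c' hc'
  exact ⟨c'', hc'', h.trans h'⟩

lemma score_congr {a b : ℕ → ℕ} {e : ℕ} (h : ∀ i < e, a i = b i) (c : ℕ → ℕ → ℤ) :
    Score a e c = Score b e c := by
  unfold Score
  refine Finset.sum_congr rfl (fun i hi => ?_)
  rw [h i (Finset.mem_range.1 hi)]

lemma Dom.of_congr (n m : ℕ) {a b : ℕ → ℕ} {e : ℕ} (h : ∀ i < e, a i = b i) : Dom n m a b e :=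
  fun c hc => ⟨c, hc, (score_congr h c).le⟩

lemma Best.of_dom {n m : ℕ} {a b : ℕ → ℕ} {e : ℕ} {V : ℤ} (hab : Dom n m a b e)
    (hba : Dom n m b a e) (h : Best n m a e V) : Best n m b e V := by
  obtain ⟨h1, c, hc, hV⟩ := h
  have h3 : ∀ c, CArr n m c → Score b e c ≤ V := by
    intro c hc
    obtain ⟨c', hc', h2⟩ := hba c hc
    exact h2.trans (h1 c' hc')
  refine ⟨h3, ?_⟩
  obtain ⟨c', hc', h2⟩ := hab c hc
  exact ⟨c', hc', le_antisymm (h3 c' hc') (hV ▸ h2)⟩

lemma Best.unique {n m : ℕ} {a : ℕ → ℕ} {e : ℕ} {V V' : ℤ} (h : Best n m a e V)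
    (h' : Best n m a e V') : V = V' := by
  obtain ⟨h1, c, hc, hV⟩ := h
  obtain ⟨h1', c', hc', hV'⟩ := h'
  apply le_antisymm
  · rw [← hV]; exact h1' c hc
  · rw [← hV']; exact h1 c' hc'

lemma gs_sum (μ a : ℕ → ℕ) (r : ℕ) {s t : ℕ} (h : s ≤ t) :
    ∑ i ∈ Ico s t, gs r (a i) = ((nu μ a t (r+1) : ℤ) - nu μ a t r)
      - ((nu μ a s (r+1) : ℤ) - nu μ a s r) := by
  induction t, h using Nat.le_induction with
  | base => simp
  | succ k hk ih =>
    rw [Finset.sum_Ico_succ_top hk, ih, nu_succ, nu_succ]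
    unfold gs
    push_cast
    ring

section
variable {N : ℕ} {μ : ℕ → ℕ} {T : ℕ → ℕ × ℕ} {r0 : ℕ}

lemma slide_dom (hT : Skew N μ T) (hr0 : μ (r0+1) < μ r0) {n m : ℕ}
    (hlt : ∀ s < N, (T s).1 < n) {e : ℕ} (he : e ≤ N) :
    ∀ p ≤ e,
      Dom n m (fun i => (T i).1) (fun s => if s < p then brow μ (fun i => (T i).1) r0 s
        else (T s).1) e ∧
      Dom n m (fun s => if s < p then brow μ (fun i => (T i).1) r0 s
        else (T s).1) (fun i => (T i).1) e := by
  set a := (fun i => (T i).1) with ha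
  intro p
  induction p with
  | zero =>
    intro _
    have : (fun s => if s < 0 then brow μ a r0 s else (T s).1) = a := by
      funext s; simp [ha]
    rw [this]
    exact ⟨Dom.refl _ _ _ _, Dom.refl _ _ _ _⟩
  | succ p ih =>
    intro hp
    obtain ⟨ih1, ih2⟩ := ih (by omega)
    set w1 : ℕ → ℕ := fun s => if s < p then brow μ a r0 s else (T s).1 with hw1
    set w2 : ℕ → ℕ := fun s => if s < p + 1 then brow μ a r0 s else (T s).1 with hw2
    have hoff : ∀ s, s ≠ p → w1 s = w2 s := by
      intro s hs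
      simp only [hw1, hw2]
      by_cases h : s < p
      · rw [if_pos h, if_pos (by omega)]
      · rw [if_neg h, if_neg (by omega)]
    have hw1p : w1 p = a p := by simp [hw1, ha]
    have hw2p : w2 p = brow μ a r0 p := by simp [hw2]
    suffices h : Dom n m w1 w2 e ∧ Dom n m w2 w1 e from ⟨ih1.trans h.1, h.2.trans ih2⟩
    by_cases hD : Down μ a r0 p
    swap
    · have hb : brow μ a r0 p = a p := by unfold brow; rw [if_neg hD]
      have : w1 = w2 := by
        funext s
        by_cases hs : s = p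
        · subst hs; rw [hw1p, hw2p, hb]
        · exact hoff s hs
      rw [this]
      exact ⟨Dom.refl _ _ _ _, Dom.refl _ _ _ _⟩
    · have hb : brow μ a r0 p = hrow μ a r0 p := by unfold brow; rw [if_pos hD]
      set r := hrow μ a r0 p with hr
      have hap : a p = r + 1 := hD.1
      have hnu : nu μ a p (r+1) + 1 = nu μ a p r := hD.2
      have hrn : r + 1 < n := by rw [← hap]; exact hlt p (by omega)
      -- prefix condition
      have hi1 : ∀ s ≤ p, 0 ≤ ∑ i ∈ Ico s p, gs r (w1 i) := by
        intro s hs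
        have e1 : ∑ i ∈ Ico s p, gs r (w1 i) = ∑ i ∈ Ico s p, gs r (brow μ a r0 i) := by
          refine Finset.sum_congr rfl (fun i hi => ?_)
          rw [Finset.mem_Ico] at hi
          simp only [hw1]
          rw [if_pos hi.2]
        rw [e1, gs_sum (Function.update μ r0 (μ r0 - 1)) _ r hs]
        have n1 := nu_new hT hr0 p (by omega) r
        have n2 := nu_new hT hr0 p (by omega) (r+1)
        rw [← ha] at n1 n2
        rw [if_pos hr] at n1
        rw [if_neg (by omega)] at n2
        have hsk := (skew_new hT hr0).shape s (by omega) r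
        have e2 : ∀ r, nu (Function.update μ r0 (μ r0 - 1)) (fun i => (fil μ T r0 N i).1) s r =
            nu (Function.update μ r0 (μ r0 - 1)) (brow μ a r0) s r := by
          intro r
          refine nu_congr _ _ _ _ _ (fun i hi => ?_)
          rw [fil_row N i (by omega)]
        rw [e2, e2] at hsk
        omega
      have hii1 : ∀ s, p < s → s ≤ e → ∑ i ∈ Ico (p+1) s, gs r (w1 i) ≤ 0 := by
        intro s hs hse
        have e1 : ∑ i ∈ Ico (p+1) s, gs r (w1 i) = ∑ i ∈ Ico (p+1) s, gs r (a i) := by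
          refine Finset.sum_congr rfl (fun i hi => ?_)
          rw [Finset.mem_Ico] at hi
          simp only [hw1]
          rw [if_neg (by omega)]
        rw [e1, gs_sum μ _ r (by omega : p + 1 ≤ s), nu_succ, nu_succ, if_pos hap,
          if_neg (by omega)]
        have := hT.shape s (by omega) r
        rw [← ha] at this
        push_cast
        omega
      have hi2 : ∀ s ≤ p, 0 ≤ ∑ i ∈ Ico s p, gs r (w2 i) := by
        intro s hs
        have := hi1 s hs
        have e1 : ∑ i ∈ Ico s p, gs r (w1 i) = ∑ i ∈ Ico s p, gs r (w2 i) := by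
          refine Finset.sum_congr rfl (fun i hi => ?_)
          rw [Finset.mem_Ico] at hi
          rw [hoff i (by omega)]
        rwa [e1] at this
      have hii2 : ∀ s, p < s → s ≤ e → ∑ i ∈ Ico (p+1) s, gs r (w2 i) ≤ 0 := by
        intro s hs hse
        have := hii1 s hs hse
        have e1 : ∑ i ∈ Ico (p+1) s, gs r (w1 i) = ∑ i ∈ Ico (p+1) s, gs r (w2 i) := by
          refine Finset.sum_congr rfl (fun i hi => ?_)
          rw [Finset.mem_Ico] at hi
          rw [hoff i (by omega)]
        rwa [e1] at this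
      constructor
      · intro c hc
        exact exchange hrn hp hoff (Or.inr ⟨hw1p.trans hap, hw2p.trans hb⟩) hi1 hii1 hc
      · intro c hc
        exact exchange hrn hp (fun s hs => (hoff s hs).symm)
          (Or.inl ⟨hw2p.trans hb, hw1p.trans hap⟩) hi2 hii2 hc

lemma slide_dom' (hT : Skew N μ T) (hr0 : μ (r0+1) < μ r0) {n m : ℕ}
    (hlt : ∀ s < N, (T s).1 < n) {e : ℕ} (he : e ≤ N) :
      Dom n m (fun i => (T i).1) (fun i => (fil μ T r0 N i).1) e ∧
      Dom n m (fun i => (fil μ T r0 N i).1) (fun i => (T i).1) e := by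
  obtain ⟨h1, h2⟩ := slide_dom (m := m) hT hr0 hlt he e le_rfl
  have hc : ∀ i < e, (fun s => if s < e then brow μ (fun i => (T i).1) r0 s else (T s).1) i
      = (fun i => (fil μ T r0 N i).1) i := by
    intro i hi
    simp only
    rw [if_pos hi, fil_row N i (by omega)]
  exact ⟨h1.trans (Dom.of_congr _ _ hc), (Dom.of_congr _ _ (fun i hi => (hc i hi).symm)).trans h2⟩

end

/-- one inner slide keeps validity, the bound on the rows, and the best scores -/
lemma innerSlide_inv {N : ℕ} {x y : (ℕ → ℕ) × (ℕ → ℕ × ℕ)} (h : InnerSlide N x y)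
    (hx : Skew N x.1 x.2) {n : ℕ} (hlt : ∀ s < N, (x.2 s).1 < n) :
    Skew N y.1 y.2 ∧ (∀ s < N, (y.2 s).1 < n) ∧
    ∀ m e, e ≤ N → ∀ V, Best n m (fun i => (x.2 i).1) e V → Best n m (fun i => (y.2 i).1) e V := by
  obtain ⟨μ, T, T', r, hr, hs⟩ := h
  simp only at hx hlt ⊢
  have hT' : T' = fil μ T r N := by
    refine slide_eq hx hr hs 0 (Nat.zero_le _) fil_zero.symm ?_
    unfold hole
    rw [hrow_zero, nu_zero]
  subst hT'
  refine ⟨skew_new hx hr, ?_, ?_⟩
  · intro s hs
    rw [fil_row N s hs]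
    exact lt_of_le_of_lt (brow_le s) (hlt s hs)
  · intro m e he V hV
    obtain ⟨h1, h2⟩ := slide_dom' (m := m) hx hr hlt he
    exact Best.of_dom h1 h2 hV

lemma rect_inv {N : ℕ} {x y : (ℕ → ℕ) × (ℕ → ℕ × ℕ)}
    (h : Relation.ReflTransGen (InnerSlide N) x y)
    (hx : Skew N x.1 x.2) {n : ℕ} (hlt : ∀ s < N, (x.2 s).1 < n) :
    Skew N y.1 y.2 ∧ (∀ s < N, (y.2 s).1 < n) ∧
    ∀ m e, e ≤ N → ∀ V, Best n m (fun i => (x.2 i).1) e V → Best n m (fun i => (y.2 i).1) e V := by
  induction h with
  | refl => exact ⟨hx, hlt, fun m e he V hV => hV⟩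
  | tail _ hbc ih =>
    obtain ⟨h1, h2, h3⟩ := ih
    obtain ⟨k1, k2, k3⟩ := innerSlide_inv hbc h1 h2
    exact ⟨k1, k2, fun m e he V hV => k3 m e he V (h3 m e he V hV)⟩

/-- rectifications exist -/
lemma rect_exists {N n : ℕ} : ∀ (d : ℕ) (μ : ℕ → ℕ) (T : ℕ → ℕ × ℕ), Skew N μ T →
    (∀ r, n ≤ r → μ r = 0) → ∑ r ∈ range n, μ r = d → ∃ R, IsRect N μ T R := by
  intro d
  induction d with
  | zero =>
    intro μ T _ h0 hsum
    have : μ = fun _ => 0 := by
      funext r
      by_cases hr : r < n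
      · exact (Finset.sum_eq_zero_iff.1 hsum) r (Finset.mem_range.2 hr)
      · exact h0 r (by omega)
    subst this
    exact ⟨T, Relation.ReflTransGen.refl⟩
  | succ d ih =>
    intro μ T hT h0 hsum
    -- largest row with `μ r > 0`
    have hex : ∃ r, r < n ∧ 0 < μ r := by
      by_contra hne
      push Not at hne
      have : ∑ r ∈ range n, μ r = 0 := by
        apply Finset.sum_eq_zero
        intro r hr
        have := hne r (Finset.mem_range.1 hr)
        omega
      omega
    classical
    let S := (range n).filter (fun r => 0 < μ r)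
    have hS : S.Nonempty := by
      obtain ⟨r, h1, h2⟩ := hex
      exact ⟨r, by simp [S, h1, h2]⟩
    let r := S.max' hS
    have hrS : r ∈ S := S.max'_mem hS
    have hr1 : r < n := by
      have := (Finset.mem_filter.1 hrS).1
      exact Finset.mem_range.1 this
    have hr2 : 0 < μ r := (Finset.mem_filter.1 hrS).2
    have hr3 : μ (r+1) = 0 := by
      by_cases h : r + 1 < n
      · by_contra hne
        have : r + 1 ∈ S := by
          simp only [S, Finset.mem_filter, Finset.mem_range]
          exact ⟨h, by omega⟩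
        have := S.le_max' _ this
        change r + 1 ≤ r at this
        omega
      · exact h0 _ (by omega)
    have hcor : μ (r+1) < μ r := by omega
    have hskew := skew_new hT hcor
    obtain ⟨R, hR⟩ := ih (Function.update μ r (μ r - 1)) (fil μ T r N) hskew (by
      intro r' hr'
      rw [Function.update_of_ne (by omega)]
      exact h0 r' hr') (by
      rw [Finset.sum_update_of_mem (Finset.mem_range.2 hr1)]
      have := Finset.add_sum_erase (range n) μ (Finset.mem_range.2 hr1)
      rw [← this] at hsum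
      rw [← Finset.erase_eq] at *
      omega)
    refine ⟨R, Relation.ReflTransGen.head ?_ hR⟩
    refine InnerSlide.mk μ T _ r hcor ?_
    have := slide_exists hT hcor N 0 (by omega)
    rw [fil_zero] at this
    unfold hole at this
    rw [hrow_zero, nu_zero] at this
    exact this

end Pool.Agent.R805.Stab
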