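import Pool.Agent.R805.Stab.Schedule

/-! # Best scores of a periodic word -/

namespace Pool.Agent.R805.Stab

open Finset

structure Per (n : ℕ) (P a : ℕ → ℕ) : Prop where
  pos : 0 < n
  lt : ∀ x < n, P x < n
  alt : ∀ s, a s < n
  iff : ∀ s x, x < n → (a s = x ↔ P x = s % n)

def dl (P : ℕ → ℕ) (x : ℕ) : ℤ := if P x < P (x-1) then 1 else 0

lemma succ_mod (n s : ℕ) (hn : 0 < n) : (s+1) % n = if s % n + 1 = n then 0 else s % n + 1 := by
  have h := Nat.mod_lt s hn
  rw [← Nat.mod_add_mod]
  split_ifs with h1
  · rw [h1, Nat.mod_self]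
  · exact Nat.mod_eq_of_lt (by omega)

lemma GG_eq {n : ℕ} {P a : ℕ → ℕ} (h : Per n P a) {x : ℕ} (hx0 : 0 < x) (hxn : x < n) (s : ℕ) :
    GG a x s = (if P x < s % n then 1 else 0) - (if P (x-1) < s % n then 1 else 0) := by
  induction s with
  | zero => simp [GG]
  | succ s ih =>
    have e1 : GG a x (s+1) = GG a x s + gx x (a s) := by
      unfold GG
      rw [Finset.sum_range_succ]
    have e2 : gx x (a s) = (if P x = s % n then 1 else 0) - (if P (x-1) = s % n then 1 else 0) := by
      unfold gx
      have h1 := h.iff s x hxn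
      have h2 := h.iff s (x-1) (by omega)
      have h3 : a s + 1 = x ↔ P (x-1) = s % n := by
        rw [← h2]; omega
      simp only [h1, h3]
    rw [e1, ih, e2, succ_mod n s h.pos]
    have l1 := h.lt x hxn
    have l2 := h.lt (x-1) (by omega)
    have l3 := Nat.mod_lt s h.pos
    split_ifs <;> omega

lemma GG_le {n : ℕ} {P a : ℕ → ℕ} (h : Per n P a) {x : ℕ} (hx0 : 0 < x) (hxn : x < n) (s : ℕ) :
    GG a x s ≤ dl P x := by
  rw [GG_eq h hx0 hxn]
  unfold dl
  split_ifs <;> omega

def TT (n : ℕ) (P : ℕ → ℕ) (q x : ℕ) : ℕ := q * n + if P x < P (x-1) then P x + 1 else 0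

lemma TT_window {n : ℕ} {P a : ℕ → ℕ} (h : Per n P a) {x : ℕ} (hx0 : 0 < x) (hxn : x < n)
    (q : ℕ) : GG a x (TT n P q x) = dl P x := by
  rw [GG_eq h hx0 hxn]
  unfold dl TT
  have l1 := h.lt x hxn
  have l2 := h.lt (x-1) (by omega)
  have e : (q * n + if P x < P (x-1) then P x + 1 else 0) % n
      = if P x < P (x-1) then P x + 1 else 0 := by
    rw [Nat.mul_add_mod_self_right]
    split_ifs with h3
    · exact Nat.mod_eq_of_lt (by omega)
    · exact Nat.zero_mod n
  rw [e]
  split_ifs <;> omega

lemma TT_le {n : ℕ} {P a : ℕ → ℕ} (h : Per n P a) {x : ℕ} (hxn : x < n)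
    {q q' : ℕ} (hq : q + 1 ≤ q') : TT n P q x ≤ q' * n := by
  have h1 : (q + 1) * n ≤ q' * n := Nat.mul_le_mul_right n hq
  rw [Nat.succ_mul] at h1
  have l1 := h.lt x hxn
  unfold TT
  split_ifs <;> omega

lemma TT_eq {n : ℕ} {P : ℕ → ℕ} {x q : ℕ} (h : ¬ P x < P (x-1)) : TT n P q x = q * n := by
  unfold TT
  rw [if_neg h]
  rfl

lemma le_TT {n : ℕ} {P : ℕ → ℕ} {x q q' : ℕ} (hq : q' ≤ q) : q' * n ≤ TT n P q x := by
  have h1 : q' * n ≤ q * n := Nat.mul_le_mul_right n hq
  unfold TT
  omega

lemma best_of_sched {n m : ℕ} (hm : m ≤ n) {P a : ℕ → ℕ} (h : Per n P a) (T : ℕ → ℕ → ℕ) (e : ℕ)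
    (h1 : ∀ i j, i < m → j + 1 < n - m → T i j ≤ T i (j+1))
    (h2 : ∀ i j, i + 1 < m → j < n - m → T i j ≤ T (i+1) j)
    (hw : ∀ i j, i < m → j < n - m → ∃ q, T i j = TT n P q (n - m + i - j))
    (he : ∀ i j, i < m → j < n - m → T i j ≤ e) :
    Best n m a e ((∑ s ∈ range e, if a s < m then 1 else 0) + KK n m (dl P)) := by
  constructor
  · intro c hc
    refine score_le hm (fun s _ => h.alt s) (fun x => ?_) (fun x hx0 hxn s _ => ?_) hc
    · unfold dl; split_ifs <;> norm_num
    · exact GG_le h hx0 hxn s
  · obtain ⟨c, hc, c1, c2, c3⟩ := schedule hm a (dl P) T e h1 h2 (fun i j hi hj => by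
      obtain ⟨q, hq⟩ := hw i j hi hj
      rw [hq]
      exact TT_window h (by omega) (by omega) q) he
    exact ⟨c, hc, score_eq hm (fun s _ => h.alt s) hc c1 c2 c3⟩

theorem best_A {n m : ℕ} (hm : m ≤ n) {P a : ℕ → ℕ} (h : Per n P a) {e : ℕ}
    (he : (n-1) * n ≤ e) :
    Best n m a e ((∑ s ∈ range e, if a s < m then 1 else 0) + KK n m (dl P)) := by
  refine best_of_sched hm h (fun i j => TT n P (i+j) (n - m + i - j)) e ?_ ?_ ?_ ?_
  · intro i j hi hj
    exact (TT_le h (by omega) (show i + j + 1 ≤ i + (j+1) by omega)).trans (le_TT le_rfl)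
  · intro i j hi hj
    exact (TT_le h (by omega) (show i + j + 1 ≤ i + 1 + j by omega)).trans (le_TT le_rfl)
  · intro i j _ _
    exact ⟨_, rfl⟩
  · intro i j hi hj
    exact (TT_le h (by omega) (show i + j + 1 ≤ n - 1 by omega)).trans he

theorem best_B {n m : ℕ} (hm : m ≤ n) {P a : ℕ → ℕ} (h : Per n P a) {e : ℕ}
    (he : (n-2) * n ≤ e) {x0 : ℕ} (hx0 : 0 < x0) (hx0n : x0 < n) (hx : ¬ P x0 < P (x0-1)) :
    Best n m a e ((∑ s ∈ range e, if a s < m then 1 else 0) + KK n m (dl P)) := by
  rcases Nat.lt_or_ge m n with hmn | hmn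
  swap
  · -- no boxes
    refine best_of_sched hm h (fun _ _ => 0) e ?_ ?_ ?_ ?_
    · intro i j hi hj; omega
    · intro i j hi hj; omega
    · intro i j hi hj; omega
    · intro i j hi hj; omega
  rcases Nat.lt_or_ge (m+1) n with hm2 | hm2
  · -- at least two moves for each path
    refine best_of_sched hm h (fun i j => TT n P
      (if j = 0 then i else if P (n - m + i - j) < P (n - m + i - j - 1) then i + j - 1 else i + j)
      (n - m + i - j)) e ?_ ?_ ?_ ?_
    · intro i j hi hj
      rw [if_neg (by omega : ¬ j + 1 = 0)]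
      by_cases hj0 : j = 0
      · subst hj0
        rw [if_pos rfl]
        by_cases hd : P (n - m + i - (0+1)) < P (n - m + i - (0+1) - 1)
        · rw [if_pos hd]
          have e1 : i + (0+1) - 1 = i := by omega
          rw [e1]
          unfold TT
          rw [if_pos hd]
          have e2 : n - m + i - 0 - 1 = n - m + i - (0+1) := by omega
          rw [e2]
          split_ifs with h3 <;> omega
        · rw [if_neg hd]
          exact (TT_le h (by omega) (show i + 1 ≤ i + (0+1) by omega)).trans (le_TT le_rfl)
      · rw [if_neg hj0]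
        have hlow : TT n P (if P (n - m + i - j) < P (n - m + i - j - 1) then i + j - 1 else i + j)
            (n - m + i - j) ≤ (i+j) * n := by
          split_ifs with h3
          · exact TT_le h (by omega) (by omega)
          · rw [TT_eq h3]
        refine hlow.trans (le_TT ?_)
        split_ifs <;> omega
    · intro i j hi hj
      by_cases hj0 : j = 0
      · rw [if_pos hj0, if_pos hj0]
        exact (TT_le h (by omega) le_rfl).trans (le_TT le_rfl)
      · rw [if_neg hj0, if_neg hj0]
        have hlow : TT n P (if P (n - m + i - j) < P (n - m + i - j - 1) then i + j - 1 else i + j)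
            (n - m + i - j) ≤ (i+j) * n := by
          split_ifs with h3
          · exact TT_le h (by omega) (by omega)
          · rw [TT_eq h3]
        refine hlow.trans (le_TT ?_)
        split_ifs <;> omega
    · intro i j _ _
      exact ⟨_, rfl⟩
    · intro i j hi hj
      refine le_trans ?_ he
      by_cases hj0 : j = 0
      · rw [if_pos hj0]
        exact TT_le h (by omega) (by omega)
      · rw [if_neg hj0]
        split_ifs with h3
        · exact TT_le h (by omega) (by omega)
        · rw [TT_eq h3]
          exact Nat.mul_le_mul_right n (by omega)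
  · -- one move for each path
    have hmn1 : n - m = 1 := by omega
    refine best_of_sched hm h (fun i j => TT n P
      (if ¬ P (n - m + i - j) < P (n - m + i - j - 1) ∨ n - m + i - j < x0 then i else i - 1)
      (n - m + i - j)) e ?_ ?_ ?_ ?_
    · intro i j hi hj
      omega
    · intro i j hi hj
      have hj0 : j = 0 := by omega
      subst hj0
      have e1 : n - m + i - 0 = i + 1 := by omega
      have e2 : n - m + (i+1) - 0 = i + 2 := by omega
      rw [e1, e2]
      by_cases h3 : ¬ P (i+2) < P (i+2-1) ∨ i + 2 < x0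
      · rw [if_pos h3]
        refine (TT_le h (by omega) (show _ ≤ i + 1 from ?_)).trans (le_TT le_rfl)
        split_ifs <;> omega
      · rw [if_neg h3]
        rw [not_or, not_not] at h3
        have e3 : i + 1 - 1 = i := by omega
        refine le_trans ?_ (le_TT (le_refl _))
        rw [e3]
        by_cases h4 : P (i+1) < P i
        · by_cases h5 : i + 1 < x0
          · exfalso
            apply hx
            have : x0 = i + 2 := by omega
            rw [this]
            exact h3.1
          · have h6 : i ≠ 0 := by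
              rintro rfl
              apply hx
              have : x0 = 1 := by omega
              rw [this]
              exact h4
            rw [if_neg (by
              rw [not_or, not_not]
              exact ⟨h4, h5⟩)]
            exact TT_le h (by omega) (by omega)
        · rw [if_pos (Or.inl h4), TT_eq h4]
    · intro i j _ _
      exact ⟨_, rfl⟩
    · intro i j hi hj
      refine le_trans ?_ he
      have hj0 : j = 0 := by omega
      subst hj0
      have e1 : n - m + i - 0 = i + 1 := by omega
      rw [e1]
      have e3 : i + 1 - 1 = i := by omega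
      rw [e3]
      by_cases h4 : P (i+1) < P i
      · by_cases h5 : i + 1 < x0
        · rw [if_pos (Or.inr h5)]
          exact TT_le h (by omega) (by omega)
        · have h6 : i ≠ 0 := by
            rintro rfl
            apply hx
            have : x0 = 1 := by omega
            rw [this]
            exact h4
          rw [if_neg (by
            rw [not_or, not_not]
            exact ⟨h4, h5⟩)]
          exact TT_le h (by omega) (by omega)
      · rw [if_pos (Or.inl h4), TT_eq h4]
        exact Nat.mul_le_mul_right n (by omega)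

end Pool.Agent.R805.Stab
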