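import Pool.Agent.R805.Stab.Bounds

/-! # Arrays from schedules -/

namespace Pool.Agent.R805.Stab

open Finset

lemma sum_ind (m k : ℕ) : ∑ i ∈ range m, (if k ≤ i then (1:ℤ) else 0) = ((m - k : ℕ) : ℤ) := by
  induction m with
  | zero => simp
  | succ m ih =>
    rw [Finset.sum_range_succ, ih]
    split_ifs with h <;> omega

theorem schedule {n m : ℕ} (hm : m ≤ n) (a : ℕ → ℕ) (δ : ℕ → ℤ) (T : ℕ → ℕ → ℕ) (e : ℕ)
    (h1 : ∀ i j, i < m → j + 1 < n - m → T i j ≤ T i (j+1))
    (h2 : ∀ i j, i + 1 < m → j < n - m → T i j ≤ T (i+1) j)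
    (hw : ∀ i j, i < m → j < n - m → GG a (n - m + i - j) (T i j) = δ (n - m + i - j))
    (he : ∀ i j, i < m → j < n - m → T i j ≤ e) :
    ∃ c, CArr n m c ∧ (∀ x, 0 < x → x < n → δ x ≠ 0 → c x 0 = UU n m x) ∧
      (∀ x, 0 < x → x < n → ∀ s < e, c x (s+1) ≠ c x s → GG a x (s+1) = δ x) ∧
      (∀ x, 0 < x → x < n → c x e = LL m x) := by
  refine ⟨fun x s => ∑ i ∈ range m,
    (if x ≤ i ∨ (x ≤ n - m + i ∧ s < T i (n - m + i - x)) then (1:ℤ) else 0), ?_, ?_, ?_, ?_⟩
  · refine ⟨?_, ?_, ?_, ?_, ?_⟩
    · intro s
      simp
    · intro s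
      apply Finset.sum_eq_zero
      intro i hi
      have := Finset.mem_range.1 hi
      rw [if_neg]
      omega
    · intro x s hx
      apply Finset.sum_le_sum
      intro i hi
      have him := Finset.mem_range.1 hi
      have himp : (x + 1 ≤ i ∨ (x + 1 ≤ n - m + i ∧ s < T i (n - m + i - (x+1)))) →
          (x ≤ i ∨ (x ≤ n - m + i ∧ s < T i (n - m + i - x))) := by
        rintro (h | ⟨h3, h4⟩)
        · left; omega
        · by_cases h5 : x ≤ i
          · left; exact h5
          · right
            refine ⟨by omega, ?_⟩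
            have h6 := h1 i (n - m + i - (x+1)) him (by omega)
            have h7 : n - m + i - (x + 1) + 1 = n - m + i - x := by omega
            rw [h7] at h6
            omega
      split_ifs with h3 h4 h4
      · exact le_rfl
      · exact absurd (himp h3) h4
      · norm_num
      · exact le_rfl
    · intro x s hx
      rcases Nat.eq_zero_or_pos m with h0 | hpos
      · subst h0
        simp
      · obtain ⟨k, rfl⟩ : ∃ k, m = k + 1 := ⟨m - 1, by omega⟩
        rw [Finset.sum_range_succ, Finset.sum_range_succ']
        have hle : ∑ i ∈ range k, (if x ≤ i ∨ (x ≤ n - (k+1) + i ∧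
            s < T i (n - (k+1) + i - x)) then (1:ℤ) else 0) ≤
            ∑ i ∈ range k, (if x + 1 ≤ i + 1 ∨ (x + 1 ≤ n - (k+1) + (i+1) ∧
            s < T (i+1) (n - (k+1) + (i+1) - (x+1))) then (1:ℤ) else 0) := by
          apply Finset.sum_le_sum
          intro i hi
          have him := Finset.mem_range.1 hi
          have himp : (x ≤ i ∨ (x ≤ n - (k+1) + i ∧ s < T i (n - (k+1) + i - x))) →
              (x + 1 ≤ i + 1 ∨ (x + 1 ≤ n - (k+1) + (i+1) ∧
                s < T (i+1) (n - (k+1) + (i+1) - (x+1)))) := by
            rintro (h | ⟨h3, h4⟩)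
            · left; omega
            · by_cases h5 : x ≤ i
              · left; omega
              · right
                refine ⟨by omega, ?_⟩
                have h6 := h2 i (n - (k+1) + i - x) (by omega) (by omega)
                have h7 : n - (k+1) + (i+1) - (x+1) = n - (k+1) + i - x := by omega
                rw [h7]
                omega
          split_ifs with h3 h4 h4
          · exact le_rfl
          · exact absurd (himp h3) h4
          · norm_num
          · exact le_rfl
        have hlast : (if x ≤ k ∨ (x ≤ n - (k+1) + k ∧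
            s < T k (n - (k+1) + k - x)) then (1:ℤ) else 0) ≤ 1 := by
          split_ifs <;> norm_num
        have hfirst : (0:ℤ) ≤ (if x + 1 ≤ 0 ∨ (x + 1 ≤ n - (k+1) + 0 ∧
            s < T 0 (n - (k+1) + 0 - (x+1))) then (1:ℤ) else 0) := by
          split_ifs <;> norm_num
        linarith
    · intro x s hx
      apply Finset.sum_le_sum
      intro i hi
      split_ifs with h3 h4 h4
      · exact le_rfl
      · exfalso
        apply h4
        rcases h3 with h | ⟨h5, h6⟩
        · left; exact h
        · right; exact ⟨h5, by omega⟩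
      · norm_num
      · exact le_rfl
  · intro x hx0 hxn hδ
    have e1 : ∑ i ∈ range m,
        (if x ≤ i ∨ (x ≤ n - m + i ∧ 0 < T i (n - m + i - x)) then (1:ℤ) else 0)
        = ∑ i ∈ range m, (if x - (n - m) ≤ i then (1:ℤ) else 0) := by
      refine Finset.sum_congr rfl (fun i hi => ?_)
      have him := Finset.mem_range.1 hi
      have hiff : (x ≤ i ∨ (x ≤ n - m + i ∧ 0 < T i (n - m + i - x))) ↔ x - (n - m) ≤ i := by
        constructor
        · rintro (h | ⟨h, _⟩) <;> omega
        · intro h
          by_cases h5 : x ≤ i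
          · left; exact h5
          · right
            refine ⟨by omega, ?_⟩
            by_contra h6
            have h7 : T i (n - m + i - x) = 0 := by omega
            have h8 := hw i (n - m + i - x) him (by omega)
            have h9 : n - m + i - (n - m + i - x) = x := by omega
            rw [h9, h7] at h8
            apply hδ
            rw [← h8]
            simp [GG]
      simp only [hiff]
    show ∑ i ∈ range m,
        (if x ≤ i ∨ (x ≤ n - m + i ∧ 0 < T i (n - m + i - x)) then (1:ℤ) else 0) = _
    rw [e1, sum_ind]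
    rfl
  · intro x hx0 hxn s hs hne
    have hex : ∃ i ∈ range m,
        (if x ≤ i ∨ (x ≤ n - m + i ∧ s + 1 < T i (n - m + i - x)) then (1:ℤ) else 0) ≠
        (if x ≤ i ∨ (x ≤ n - m + i ∧ s < T i (n - m + i - x)) then (1:ℤ) else 0) := by
      by_contra hno
      push Not at hno
      exact hne (Finset.sum_congr rfl hno)
    obtain ⟨i, hi, hne'⟩ := hex
    have him := Finset.mem_range.1 hi
    have h3 : ¬ (x ≤ i) := by
      intro h
      apply hne'
      rw [if_pos (Or.inl h), if_pos (Or.inl h)]
    have h4 : x ≤ n - m + i := by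
      by_contra h
      apply hne'
      rw [if_neg (by omega), if_neg (by omega)]
    have h5 : T i (n - m + i - x) = s + 1 := by
      by_contra h
      apply hne'
      by_cases h6 : s + 1 < T i (n - m + i - x)
      · rw [if_pos (Or.inr ⟨h4, h6⟩), if_pos (Or.inr ⟨h4, by omega⟩)]
      · rw [if_neg (by omega), if_neg (by omega)]
    have h8 := hw i (n - m + i - x) him (by omega)
    have h9 : n - m + i - (n - m + i - x) = x := by omega
    rw [h9, h5] at h8
    exact h8
  · intro x hx0 hxn
    have e1 : ∑ i ∈ range m,
        (if x ≤ i ∨ (x ≤ n - m + i ∧ e < T i (n - m + i - x)) then (1:ℤ) else 0)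
        = ∑ i ∈ range m, (if x ≤ i then (1:ℤ) else 0) := by
      refine Finset.sum_congr rfl (fun i hi => ?_)
      have him := Finset.mem_range.1 hi
      have hiff : (x ≤ i ∨ (x ≤ n - m + i ∧ e < T i (n - m + i - x))) ↔ x ≤ i := by
        constructor
        · rintro (h | ⟨h, h6⟩)
          · exact h
          · by_contra h7
            have := he i (n - m + i - x) him (by omega)
            omega
        · intro h
          left; exact h
      simp only [hiff]
    show ∑ i ∈ range m,
        (if x ≤ i ∨ (x ≤ n - m + i ∧ e < T i (n - m + i - x)) then (1:ℤ) else 0) = _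
    rw [e1, sum_ind]
    rfl

end Pool.Agent.R805.Stab
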