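import Pool.Agent.R805.Stab.Defs
import Pool.Agent.R805.Stab.Arrays

/-! # The slide of a valid skew tableau, in terms of rows -/

namespace Pool.Agent.R805.Stab

open Finset

/-- right end of row `r` after the entries `< s` -/
def nu (μ a : ℕ → ℕ) (s r : ℕ) : ℕ := μ r + ∑ i ∈ range s, if a i = r then 1 else 0

lemma nu_zero (μ a : ℕ → ℕ) (r : ℕ) : nu μ a 0 r = μ r := by simp [nu]

lemma nu_succ (μ a : ℕ → ℕ) (s r : ℕ) :
    nu μ a (s+1) r = nu μ a s r + if a s = r then 1 else 0 := by
  unfold nu
  rw [Finset.sum_range_succ, add_assoc]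

lemma nu_mono (μ a : ℕ → ℕ) {s t : ℕ} (h : s ≤ t) (r : ℕ) : nu μ a s r ≤ nu μ a t r := by
  induction t, h using Nat.le_induction with
  | base => exact le_rfl
  | succ k hk ih => rw [nu_succ]; omega

structure Skew (N : ℕ) (μ : ℕ → ℕ) (T : ℕ → ℕ × ℕ) : Prop where
  pos : ∀ s < N, (T s).2 = nu μ (fun i => (T i).1) s (T s).1
  shape : ∀ s ≤ N, ∀ r, nu μ (fun i => (T i).1) s (r+1) ≤ nu μ (fun i => (T i).1) s r

/-- row of the hole before the entry `s` is examined -/
def hrow (μ a : ℕ → ℕ) (r0 : ℕ) : ℕ → ℕ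
  | 0 => r0
  | s+1 => if a s = hrow μ a r0 s + 1 ∧
      nu μ a s (hrow μ a r0 s + 1) + 1 = nu μ a s (hrow μ a r0 s)
    then hrow μ a r0 s + 1 else hrow μ a r0 s

def Down (μ a : ℕ → ℕ) (r0 s : ℕ) : Prop :=
  a s = hrow μ a r0 s + 1 ∧ nu μ a s (hrow μ a r0 s + 1) + 1 = nu μ a s (hrow μ a r0 s)

instance (μ a : ℕ → ℕ) (r0 s : ℕ) : Decidable (Down μ a r0 s) := by unfold Down; infer_instance

lemma hrow_zero (μ a : ℕ → ℕ) (r0 : ℕ) : hrow μ a r0 0 = r0 := rfl

lemma hrow_down {μ a : ℕ → ℕ} {r0 s : ℕ} (h : Down μ a r0 s) :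
    hrow μ a r0 (s+1) = hrow μ a r0 s + 1 := by
  exact if_pos h

lemma hrow_not {μ a : ℕ → ℕ} {r0 s : ℕ} (h : ¬ Down μ a r0 s) :
    hrow μ a r0 (s+1) = hrow μ a r0 s := by
  exact if_neg h

/-- the new row of the entry `s` -/
def brow (μ a : ℕ → ℕ) (r0 s : ℕ) : ℕ := if Down μ a r0 s then hrow μ a r0 s else a s

/-- the position of the hole -/
def hole (μ a : ℕ → ℕ) (r0 s : ℕ) : ℕ × ℕ := (hrow μ a r0 s, nu μ a s (hrow μ a r0 s) - 1)

/-- the filling after the entries `< s` have been examined -/
def fil (μ : ℕ → ℕ) (T : ℕ → ℕ × ℕ) (r0 s : ℕ) (i : ℕ) : ℕ × ℕ :=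
  if i < s ∧ ((T i).1 = hrow μ (fun i => (T i).1) r0 i ∨ Down μ (fun i => (T i).1) r0 i) then
    hole μ (fun i => (T i).1) r0 i else T i

section
variable {N : ℕ} {μ : ℕ → ℕ} {T : ℕ → ℕ × ℕ} {r0 : ℕ}

lemma inv_hole (hT : Skew N μ T) (hr0 : μ (r0+1) < μ r0) :
    ∀ s ≤ N, nu μ (fun i => (T i).1) s (hrow μ (fun i => (T i).1) r0 s + 1) <
      nu μ (fun i => (T i).1) s (hrow μ (fun i => (T i).1) r0 s) := by
  set a := (fun i => (T i).1) with ha
  intro s
  induction s with
  | zero => intro _; rw [hrow_zero, nu_zero, nu_zero]; exact hr0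
  | succ s ih =>
    intro hs
    have ih' := ih (by omega)
    by_cases hD : Down μ a r0 s
    · rw [hrow_down hD, nu_succ, nu_succ]
      have h1 := hT.shape s (by omega) (hrow μ a r0 s + 1)
      rw [← ha] at h1
      have h2 := hD.1
      rw [if_neg (by omega), if_pos h2]
      omega
    · rw [hrow_not hD, nu_succ, nu_succ]
      by_cases h1 : a s = hrow μ a r0 s + 1
      · rw [if_pos h1, if_neg (by omega)]
        have h2 : ¬ (nu μ a s (hrow μ a r0 s + 1) + 1 = nu μ a s (hrow μ a r0 s)) :=
          fun h => hD ⟨h1, h⟩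
        omega
      · rw [if_neg h1]
        omega

/-- the new shapes -/
lemma nu_new (_hT : Skew N μ T) (hr0 : μ (r0+1) < μ r0) :
    ∀ s ≤ N, ∀ r, nu (Function.update μ r0 (μ r0 - 1)) (brow μ (fun i => (T i).1) r0) s r
      + (if r = hrow μ (fun i => (T i).1) r0 s then 1 else 0) = nu μ (fun i => (T i).1) s r := by
  set a := (fun i => (T i).1) with ha
  intro s
  induction s with
  | zero =>
    intro _ r
    rw [hrow_zero, nu_zero, nu_zero]
    by_cases hr : r = r0
    · subst hr
      rw [if_pos rfl, Function.update_self]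
      omega
    · rw [if_neg hr, Function.update_of_ne hr]
      omega
  | succ s ih =>
    intro hs r
    have ih' := ih (by omega) r
    rw [nu_succ, nu_succ]
    by_cases hD : Down μ a r0 s
    · have hb : brow μ a r0 s = hrow μ a r0 s := by unfold brow; rw [if_pos hD]
      have h2 := hD.1
      rw [hrow_down hD, hb, h2]
      by_cases h1 : r = hrow μ a r0 s
      · rw [if_pos h1] at ih'
        rw [if_pos h1.symm, if_neg (by omega), if_neg (by omega)]
        omega
      · rw [if_neg h1] at ih'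
        rw [if_neg (fun h => h1 h.symm)]
        by_cases h3 : r = hrow μ a r0 s + 1
        · rw [if_pos h3, if_pos h3.symm]
          omega
        · rw [if_neg h3, if_neg (fun h => h3 h.symm)]
          omega
    · have hb : brow μ a r0 s = a s := by unfold brow; rw [if_neg hD]
      rw [hrow_not hD, hb]
      omega

lemma brow_le (s : ℕ) : brow μ (fun i => (T i).1) r0 s ≤ (T s).1 := by
  unfold brow
  split_ifs with h
  · have := h.1
    simp only at this
    omega
  · exact le_rfl

lemma fil_row (s i : ℕ) (hi : i < s) : (fil μ T r0 s i).1 = brow μ (fun i => (T i).1) r0 i := by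
  unfold fil brow
  by_cases hD : Down μ (fun i => (T i).1) r0 i
  · rw [if_pos ⟨hi, Or.inr hD⟩, if_pos hD]
    rfl
  · rw [if_neg hD]
    by_cases h2 : (T i).1 = hrow μ (fun i => (T i).1) r0 i
    · rw [if_pos ⟨hi, Or.inl h2⟩]
      exact h2.symm
    · rw [if_neg (by tauto)]

lemma fil_col (hT : Skew N μ T) (hr0 : μ (r0+1) < μ r0) (s i : ℕ) (hi : i < s) (hiN : i < N) :
    (fil μ T r0 s i).2 =
      nu (Function.update μ r0 (μ r0 - 1)) (brow μ (fun i => (T i).1) r0) i
        (brow μ (fun i => (T i).1) r0 i) := by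
  have h1 := nu_new hT hr0 i hiN.le (brow μ (fun i => (T i).1) r0 i)
  have hinv := inv_hole hT hr0 i hiN.le
  by_cases hD : Down μ (fun i => (T i).1) r0 i
  · have hb : brow μ (fun i => (T i).1) r0 i = hrow μ (fun i => (T i).1) r0 i := by
      unfold brow; rw [if_pos hD]
    rw [hb] at h1 ⊢
    rw [if_pos rfl] at h1
    unfold fil
    rw [if_pos ⟨hi, Or.inr hD⟩]
    show nu _ _ _ _ - 1 = _
    omega
  · have hb : brow μ (fun i => (T i).1) r0 i = (T i).1 := by
      unfold brow; rw [if_neg hD]
    rw [hb] at h1 ⊢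
    unfold fil
    by_cases h2 : (T i).1 = hrow μ (fun i => (T i).1) r0 i
    · rw [if_pos h2] at h1
      rw [if_pos ⟨hi, Or.inl h2⟩]
      show nu _ _ _ _ - 1 = _
      rw [h2] at h1 ⊢
      omega
    · rw [if_neg h2] at h1
      rw [if_neg (by tauto), hT.pos i hiN]
      omega

/-- entries already examined are not adjacent to the hole -/
lemma not_adj_of_lt (hT : Skew N μ T) (hr0 : μ (r0+1) < μ r0) (s i : ℕ) (hi : i < s)
    (hsN : s ≤ N) : ¬ Adj (hole μ (fun i => (T i).1) r0 s) (fil μ T r0 s i) := by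
  intro hadj
  have hc := fil_col hT hr0 s i hi (by omega)
  have hr := fil_row (μ := μ) (T := T) (r0 := r0) s i hi
  have h1 := nu_mono (Function.update μ r0 (μ r0 - 1)) (brow μ (fun i => (T i).1) r0)
    (show i + 1 ≤ s from hi) (brow μ (fun i => (T i).1) r0 i)
  rw [nu_succ, if_pos rfl] at h1
  have h2 := nu_new hT hr0 s hsN (brow μ (fun i => (T i).1) r0 i)
  have hinv := inv_hole hT hr0 s hsN
  unfold Adj hole at hadj
  simp only at hadj
  rcases hadj with h | h
  · rw [h] at hc hr
    simp only at hc hr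
    rw [← hr] at h1 h2 hc
    rw [if_pos rfl] at h2
    omega
  · rw [h] at hc hr
    simp only at hc hr
    rw [← hr] at h1 h2 hc
    rw [if_neg (by omega)] at h2
    omega

lemma adj_iff (hT : Skew N μ T) (hr0 : μ (r0+1) < μ r0) (s : ℕ) (hsN : s < N) :
    Adj (hole μ (fun i => (T i).1) r0 s) (T s) ↔
      ((T s).1 = hrow μ (fun i => (T i).1) r0 s ∨ Down μ (fun i => (T i).1) r0 s) := by
  have hinv := inv_hole hT hr0 s hsN.le
  have hp := hT.pos s hsN
  unfold Adj hole Down
  constructor
  · rintro (h | h)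
    · left; rw [h]
    · right
      have h1 : (T s).1 = hrow μ (fun i => (T i).1) r0 s + 1 := by rw [h]
      refine ⟨h1, ?_⟩
      have h2 : (T s).2 = nu μ (fun i => (T i).1) s (hrow μ (fun i => (T i).1) r0 s) - 1 := by
        rw [h]
      rw [h1] at hp
      omega
  · rintro (h | ⟨h1, h2⟩)
    · left
      rw [h] at hp
      apply Prod.ext
      · exact h
      · show (T s).2 = nu _ _ _ _ - 1 + 1
        omega
    · right
      simp only at h1
      rw [h1] at hp
      apply Prod.ext
      · exact h1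
      · show (T s).2 = nu _ _ _ _ - 1
        omega

lemma fil_succ_adj (hT : Skew N μ T) (hr0 : μ (r0+1) < μ r0) (s : ℕ) (hsN : s < N)
    (h : Adj (hole μ (fun i => (T i).1) r0 s) (T s)) :
    fil μ T r0 (s+1) = Function.update (fil μ T r0 s) s (hole μ (fun i => (T i).1) r0 s) ∧
    hole μ (fun i => (T i).1) r0 (s+1) = T s := by
  have h1 := (adj_iff hT hr0 s hsN).1 h
  have hinv := inv_hole hT hr0 s hsN.le
  have hp := hT.pos s hsN
  constructor
  · funext i
    by_cases hi : i = s
    · subst hi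
      rw [Function.update_self]
      unfold fil
      rw [if_pos ⟨by omega, h1⟩]
    · rw [Function.update_of_ne hi]
      unfold fil
      by_cases h2 : i < s
      · simp only [h2, Nat.lt_succ_of_lt h2]
      · have h3 : ¬ i < s + 1 := by omega
        simp only [h2, h3]
  · unfold hole
    by_cases hD : Down μ (fun i => (T i).1) r0 s
    · rw [hrow_down hD, nu_succ]
      have h3 := hD.1
      simp only at h3
      rw [h3] at hp
      apply Prod.ext
      · exact h3.symm
      · show nu _ _ _ _ + (if (T s).1 = _ then 1 else 0) - 1 = (T s).2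
        rw [if_pos h3]
        omega
    · have h3 : (T s).1 = hrow μ (fun i => (T i).1) r0 s := by tauto
      rw [hrow_not hD, nu_succ]
      rw [h3] at hp
      apply Prod.ext
      · exact h3.symm
      · show nu _ _ _ _ + (if (T s).1 = _ then 1 else 0) - 1 = (T s).2
        rw [if_pos h3]
        omega

lemma fil_succ_not (hT : Skew N μ T) (hr0 : μ (r0+1) < μ r0) (s : ℕ) (hsN : s < N)
    (h : ¬ Adj (hole μ (fun i => (T i).1) r0 s) (T s)) :
    fil μ T r0 (s+1) = fil μ T r0 s ∧
    hole μ (fun i => (T i).1) r0 (s+1) = hole μ (fun i => (T i).1) r0 s := by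
  have h1 : ¬ ((T s).1 = hrow μ (fun i => (T i).1) r0 s ∨ Down μ (fun i => (T i).1) r0 s) :=
    fun h' => h ((adj_iff hT hr0 s hsN).2 h')
  rw [not_or] at h1
  constructor
  · funext i
    unfold fil
    by_cases hi : i = s
    · subst hi
      rw [if_neg (by tauto), if_neg (by tauto)]
    · by_cases h2 : i < s
      · simp only [h2, Nat.lt_succ_of_lt h2]
      · have h3 : ¬ i < s + 1 := by omega
        simp only [h2, h3]
  · unfold hole
    rw [hrow_not h1.2, nu_succ]
    have h3 : ¬ ((fun i => (T i).1) s = hrow μ (fun i => (T i).1) r0 s) := h1.1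
    rw [if_neg h3]
    rfl

lemma fil_ge (s i : ℕ) (hi : s ≤ i) : fil μ T r0 s i = T i := by
  unfold fil
  rw [if_neg (by omega)]

/-- every slide gives the filling `fil … N` -/
lemma slide_eq (hT : Skew N μ T) (hr0 : μ (r0+1) < μ r0) {T1 : ℕ → ℕ × ℕ} {h1 : ℕ × ℕ}
    {T' : ℕ → ℕ × ℕ} (hs : Slide N T1 h1 T') :
    ∀ s ≤ N, T1 = fil μ T r0 s → h1 = hole μ (fun i => (T i).1) r0 s → T' = fil μ T r0 N := by
  induction hs with
  | stop T1 h1 hst =>
    intro s hs e1 e2
    have key : ∀ t, s ≤ t → t ≤ N → fil μ T r0 t = fil μ T r0 s ∧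
        hole μ (fun i => (T i).1) r0 t = hole μ (fun i => (T i).1) r0 s := by
      intro t ht
      induction t, ht using Nat.le_induction with
      | base => intro _; exact ⟨rfl, rfl⟩
      | succ k hk ih =>
        intro hkN
        obtain ⟨i1, i2⟩ := ih (by omega)
        have hna : ¬ Adj (hole μ (fun i => (T i).1) r0 k) (T k) := by
          rw [i2, ← e2]
          have := hst k (by omega)
          rwa [e1, fil_ge s k hk] at this
        obtain ⟨j1, j2⟩ := fil_succ_not hT hr0 k (by omega) hna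
        exact ⟨j1.trans i1, j2.trans i2⟩
    rw [e1, (key N hs le_rfl).1]
  | move T1 h1 e he ha hmin T' hrest ih =>
    intro s hs e1 e2
    have hse : s ≤ e := by
      by_contra hlt
      push Not at hlt
      rw [e1, e2] at ha
      exact not_adj_of_lt hT hr0 s e hlt hs ha
    have key : ∀ t, s ≤ t → t ≤ e → fil μ T r0 t = fil μ T r0 s ∧
        hole μ (fun i => (T i).1) r0 t = hole μ (fun i => (T i).1) r0 s := by
      intro t ht
      induction t, ht using Nat.le_induction with
      | base => intro _; exact ⟨rfl, rfl⟩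
      | succ k hk ih =>
        intro hkN
        obtain ⟨i1, i2⟩ := ih (by omega)
        have hna : ¬ Adj (hole μ (fun i => (T i).1) r0 k) (T k) := by
          rw [i2, ← e2]
          intro hadj
          have := hmin k (by omega) (by rw [e1, fil_ge s k hk]; exact hadj)
          omega
        obtain ⟨j1, j2⟩ := fil_succ_not hT hr0 k (by omega) hna
        exact ⟨j1.trans i1, j2.trans i2⟩
    obtain ⟨k1, k2⟩ := key e hse le_rfl
    have hTe : T1 e = T e := by rw [e1, fil_ge s e hse]
    have hadj : Adj (hole μ (fun i => (T i).1) r0 e) (T e) := by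
      rw [k2, ← e2, ← hTe]; exact ha
    obtain ⟨j1, j2⟩ := fil_succ_adj hT hr0 e he hadj
    refine ih (e+1) he ?_ ?_
    · rw [j1, k1, k2, ← e1, ← e2]
    · rw [j2, hTe]

/-- the slide exists -/
lemma slide_exists (hT : Skew N μ T) (hr0 : μ (r0+1) < μ r0) :
    ∀ d s, s + d = N → Slide N (fil μ T r0 s) (hole μ (fun i => (T i).1) r0 s) (fil μ T r0 N) := by
  intro d
  induction d with
  | zero =>
    intro s hs
    have : s = N := by omega
    subst this
    exact Slide.stop _ _ (fun e he => not_adj_of_lt hT hr0 s e he le_rfl)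
  | succ d ih =>
    intro s hs
    have ih' := ih (s+1) (by omega)
    by_cases h : Adj (hole μ (fun i => (T i).1) r0 s) (T s)
    · obtain ⟨j1, j2⟩ := fil_succ_adj hT hr0 s (by omega) h
      refine Slide.move _ _ s (by omega) ?_ ?_ _ ?_
      · rw [fil_ge s s le_rfl]; exact h
      · intro e' he' hadj
        by_contra hlt
        push Not at hlt
        exact not_adj_of_lt hT hr0 s e' hlt (by omega) hadj
      · rw [← j1, fil_ge s s le_rfl, ← j2]
        exact ih'
    · obtain ⟨j1, j2⟩ := fil_succ_not hT hr0 s (by omega) h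
      rw [← j1, ← j2]
      exact ih'

lemma fil_zero : fil μ T r0 0 = T := by
  funext i
  exact fil_ge 0 i (Nat.zero_le i)

lemma nu_congr (μ a b : ℕ → ℕ) (s r : ℕ) (h : ∀ i < s, a i = b i) : nu μ a s r = nu μ b s r := by
  unfold nu
  congr 1
  refine Finset.sum_congr rfl (fun i hi => ?_)
  rw [h i (Finset.mem_range.1 hi)]

lemma skew_new (hT : Skew N μ T) (hr0 : μ (r0+1) < μ r0) :
    Skew N (Function.update μ r0 (μ r0 - 1)) (fil μ T r0 N) := by
  constructor
  · intro s hs
    rw [fil_col hT hr0 N s hs hs, fil_row N s hs]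
    refine nu_congr _ _ _ _ _ (fun i hi => ?_)
    rw [fil_row N i (by omega)]
  · intro s hs r
    have e1 : ∀ r, nu (Function.update μ r0 (μ r0 - 1)) (fun i => (fil μ T r0 N i).1) s r =
        nu (Function.update μ r0 (μ r0 - 1)) (brow μ (fun i => (T i).1) r0) s r := by
      intro r
      refine nu_congr _ _ _ _ _ (fun i hi => ?_)
      rw [fil_row N i (by omega)]
    rw [e1, e1]
    have h1 := nu_new hT hr0 s hs r
    have h2 := nu_new hT hr0 s hs (r+1)
    have hinv := inv_hole hT hr0 s hs
    have hsh := hT.shape s hs r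
    by_cases h3 : r = hrow μ (fun i => (T i).1) r0 s
    · rw [if_pos h3] at h1
      rw [if_neg (by omega)] at h2
      rw [← h3] at hinv
      omega
    · rw [if_neg h3] at h1
      omega

end

end Pool.Agent.R805.Stab
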