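import Pool.Agent.R805.Stab.Final

/-! # The rectification of `T_w^{(k)}` exists and is unique -/

namespace Pool.Agent.R805.Stab

open Finset

lemma best_exists {n m : ℕ} (hm : m ≤ n) {a : ℕ → ℕ} (ha : ∀ s, a s < n) (e : ℕ) :
    ∃ V, Best n m a e V := by
  have hL : CArr n m (fun x _ => (LL m x : ℤ)) := by
    refine ⟨?_, ?_, ?_, ?_, ?_⟩
    · intro s; simp [LL]
    · intro s; simp [LL]; omega
    · intro x s _; simp only [LL]; omega
    · intro x s _; simp only [LL]; omega
    · intro x s _; exact le_rfl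
  have hfin : ∃ V : ℤ, (∃ c, CArr n m c ∧ Score a e c = V) ∧
      ∀ V', (∃ c, CArr n m c ∧ Score a e c = V') → V' ≤ V := by
    refine Int.exists_greatest_of_bdd ⟨e, ?_⟩ ⟨_, _, hL, rfl⟩
    rintro V' ⟨c', hc', rfl⟩
    unfold Score
    have : ∀ s ∈ range e, (c' (a s) s - c' (a s + 1) s) ≤ 1 := by
      intro s _
      have := hc'.step1 _ s (ha s)
      omega
    refine (Finset.sum_le_sum this).trans ?_
    simp
  obtain ⟨V, h1, h2⟩ := hfin
  exact ⟨V, fun c hc => h2 _ ⟨c, hc, rfl⟩, h1⟩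

theorem rect_unique {n : ℕ} (hn : 0 < n) (w : Equiv.Perm (Fin n)) {N : ℕ} {R R' : ℕ → ℕ × ℕ}
    (hR : IsRect N (innerOf n) (cellOf w) R) (hR' : IsRect N (innerOf n) (cellOf w) R') :
    ∀ e < N, R e = R' e := by
  have hper := per w hn
  obtain ⟨s1, s2, s3⟩ := rect_inv hR (skew_cell w hn N) (n := n) (fun s _ => hper.alt s)
  obtain ⟨t1, t2, t3⟩ := rect_inv hR' (skew_cell w hn N) (n := n) (fun s _ => hper.alt s)
  simp only at s1 s2 s3 t1 t2 t3
  have hsum : ∀ m ≤ n, ∀ e ≤ N, (∑ s ∈ range e, if (R s).1 < m then (1:ℤ) else 0) =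
      ∑ s ∈ range e, if (R' s).1 < m then (1:ℤ) else 0 := by
    intro m hm e he
    obtain ⟨V, hV⟩ := best_exists (m := m) hm hper.alt e
    exact (Best.unique (best_straight hm s1 s2 he) (s3 m e he V hV)).trans
      (Best.unique (t3 m e he V hV) (best_straight hm t1 t2 he))
  have hrow : ∀ e < N, (R e).1 = (R' e).1 := by
    intro e he
    have key : ∀ m ≤ n, ((R e).1 < m ↔ (R' e).1 < m) := by
      intro m hm
      have b1 := hsum m hm e he.le
      have b2 := hsum m hm (e+1) he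
      rw [Finset.sum_range_succ, Finset.sum_range_succ] at b2
      have d3 : (if (R e).1 < m then (1:ℤ) else 0) = if (R' e).1 < m then (1:ℤ) else 0 := by
        linarith
      split_ifs at d3 with h3 h4 h4
      · exact ⟨fun _ => h4, fun _ => h3⟩
      · norm_num at d3
      · norm_num at d3
      · exact ⟨fun h => absurd h h3, fun h => absurd h h4⟩
    have k1 := (key ((R' e).1 + 1) (t2 e he)).2 (by omega)
    have k2 := (key ((R e).1 + 1) (s2 e he)).1 (by omega)
    omega
  intro e he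
  apply Prod.ext
  · exact hrow e he
  · rw [s1.pos e he, t1.pos e he, hrow e he]
    exact nu_congr _ _ _ _ _ (fun i hi => hrow i (by omega))

theorem main (n : ℕ) (hn : 1 ≤ n) :
    (∀ w : Equiv.Perm (Fin n), stab w = n ↔ w = 1) ∧
    (∀ (w : Equiv.Perm (Fin n)) (k : ℕ),
      ∃ R, IsRect (k * n) (innerOf n) (cellOf w) R ∧
        ∀ R', IsRect (k * n) (innerOf n) (cellOf w) R' → ∀ e < k * n, R' e = R e) := by
  refine ⟨fun w => stab_eq_iff hn w, fun w k => ?_⟩
  obtain ⟨R, hR⟩ := exists_rect w hn (k * n)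
  exact ⟨R, hR, fun R' hR' => rect_unique hn w hR' hR⟩

end Pool.Agent.R805.Stab
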